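import Pool.Agent.Work.MP_25cd3b_gt.NC.Defs

set_option autoImplicit false

/-!
# No conjugate points (Jacobi fields) implies that geodesics minimise: statements with proofs

Notation of the comments: `Γ = Ga g`, `v = vel g z`, `X = XH (Hm g)`, `z_t = φ t z`,
`δ_t = M t z δ`, `ex = expo φ g p`.
-/

open MeasureTheory Set Filter Topology
open scoped ContDiff ENNReal
open Pool.Agent.Work.MP_c9f990_an.Al (IsFlow)

namespace Pool.Agent.MLS

/-- Christoffel symbols.  Smoothness: composition of smooth maps and continuous linear maps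
(`fderiv` of the smooth `g.val`, `iop g` by `StOp`).  `koz` unfolds by `simp` to the formula; then
`g.val x (iop (sh l)) w = inner (op (iop (sh l))) w = inner (sh l) w = l w` (`StOp`).  Symmetry in
`u, v`: the functional is symmetric because `fderiv ℝ g.val x w u v = fderiv ℝ g.val x w v u`
(differentiate `g.symm`; for instance `fderiv ℝ (fun y => g.val y u v)`, or `flip` applied to
`g.val`). -/
def NcGa : Prop := ∀ (n : ℕ) (g : Form n), Riem g → ContDiff ℝ ∞ (Ga g) ∧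
  (∀ x w u v, fderiv ℝ g.val x w u v = fderiv ℝ g.val x w v u) ∧
  (∀ x u v, Ga g x u v = Ga g x v u) ∧
  ∀ x u v w, g.val x (Ga g x u v) w =
    1 / 2 * (fderiv ℝ g.val x u v w + fderiv ℝ g.val x v u w - fderiv ℝ g.val x w u v)

/-- Geodesic equation `c'' = - Γ(c', c')`.  For a `C^2` curve `c` the function
`s ↦ g.val (c s) (c' s) w` has the derivative `Dg(c')(c', w) + g (c'', w)` (product rule,
`HasDerivAt.clm_apply`), and `g (Γ (c', c'), w) = Dg(c')(c', w) - 1/2 Dg(w)(c', c')` (`NcGa`).  So the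
Euler-Lagrange equation for all `w` says `g (c'' + Γ (c', c'), w) = 0` for all `w`, that is
`c'' = - Γ (c', c')` (take `w = c'' + Γ (c', c')`; `g` is positive definite). -/
def NcGeo : Prop := ∀ (n : ℕ) (g : Form n), Riem g → ∀ c : ℝ → E n,
  IsGeo g c ↔ ContDiff ℝ 2 c ∧
    ∀ t, HasDerivAt (deriv c) (-(Ga g (c t) (deriv c t) (deriv c t))) t

/-- Geodesic spray.  Let `c t = (φ t z).1`.  By `StGeo1` it is a geodesic with
`deriv c t = vel g (φ t z)`; so at `t = 0` the function `t ↦ vel g (φ t z)` has the derivative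
`- Γ (v, v)` by `NcGeo`, and `fderiv ℝ (vel g) z (X z)` by the chain rule (`vel g` is smooth:
`iop g` is smooth, `StOp`). -/
def NcSpr : Prop := ∀ (n : ℕ) (g : Form n) (φ : ℝ → W n → W n) (M : ℝ → W n → W n →L[ℝ] W n),
  Riem g → IsFlow (XH (Hm g)) φ M → ContDiff ℝ ∞ (vel g) ∧
  ∀ z : W n, fderiv ℝ (vel g) z (XH (Hm g) z) = -(Ga g z.1 (vel g z) (vel g z))

/-- Linearised geodesic equation.  `δ_t = M t z δ`, `J = δ_t.1`, `c = z_t.1`, `v = vel g z_t = c'`.
By `IsFlow.Mode` `δ_t' = DX(z_t) δ_t`.  As `(X y).1 = vel g y` for all `y` (`StHd`), the first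
component of `DX(z_t) δ_t` is `Dvel(z_t) δ_t`; so `J' = Dvel(z_t) δ_t`, and
`J'' = D²vel(z_t)(X z_t)(δ_t) + Dvel(z_t)(DX(z_t) δ_t)` (so `J` is `C^2`: the right side is
continuous in `t`).  Differentiate the identity `Dvel(y)(X y) = - Γ(y.1)(vel y, vel y)` of `NcSpr` at
`y = z_t` in the direction `δ_t`:
`D²vel(z_t)(δ_t)(X z_t) + Dvel(z_t)(DX(z_t) δ_t) = - DΓ(c)(J)(v, v) - Γ(J', v) - Γ(v, J')`.
The second derivative of the smooth map `vel` is symmetric and `Γ` is symmetric. -/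
def NcLin : Prop := ∀ (n : ℕ) (g : Form n) (φ : ℝ → W n → W n) (M : ℝ → W n → W n →L[ℝ] W n),
  Riem g → IsFlow (XH (Hm g)) φ M → ∀ z δ : W n,
  ContDiff ℝ 2 (fun t => (M t z δ).1) ∧
  (∀ t, deriv (fun s => (M s z δ).1) t = fderiv ℝ (vel g) (φ t z) (M t z δ)) ∧
  ∀ t, HasDerivAt (deriv (fun s => (M s z δ).1))
    (-(fderiv ℝ (Ga g) (φ t z).1 (M t z δ).1 (vel g (φ t z)) (vel g (φ t z))) -
      (2 : ℝ) • Ga g (φ t z).1 (vel g (φ t z)) (deriv (fun s => (M s z δ).1) t)) t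

/-- The linearised geodesic equation is the Jacobi equation.  Let `c` be a geodesic (so
`c'' = - Γ(c', c')`, `NcGeo`), `J` of class `C^2`, `Y = cov g c J = J' + Γ(c)(c', J)`.  Product rule:
`Y' = J'' + DΓ(c')(c', J) + Γ(c'', J) + Γ(c', J')`, and `cov g c Y = Y' + Γ(c', J') +
Γ(c', Γ(c', J))`.  Insert `J'' = - DΓ(J)(c', c') - 2 Γ(c', J')` and `c''`:
`cov g c Y = - DΓ(J)(c', c') + DΓ(c')(c', J) - Γ(Γ(c', c'), J) + Γ(c', Γ(c', J))`.
This is `- Rm g c J c' c'` because `DΓ(c')(c', J) = DΓ(c')(J, c')` (derivative of the symmetry),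
`Γ(Γ(c', c'), J) = Γ(J, Γ(c', c'))` and `Γ(c', J) = Γ(J, c')`. -/
def NcCov : Prop := ∀ (n : ℕ) (g : Form n), Riem g → ∀ c J : ℝ → E n, IsGeo g c →
  ContDiff ℝ 2 J →
  (∀ t, HasDerivAt (deriv J) (-(fderiv ℝ (Ga g) (c t) (J t) (deriv c t) (deriv c t)) -
    (2 : ℝ) • Ga g (c t) (deriv c t) (deriv J t)) t) → IsJac g c J

/-- Exponential map.  (1) `φ 1` has the continuous derivative `M 1`, so `ex` is `C^1` with the stated
derivative (chain rule; `v ↦ (p, op g p v)` is affine).  (2) Homogeneity: `X (x, λ P) =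
(λ a, λ^2 b)` if `X (x, P) = (a, b)` (`StHd`: `vel g (x, λ P) = λ vel g (x, P)`).  So
`t ↦ ((φ (λ t) z).1, λ (φ (λ t) z).2)`, `z = (p, op g p v)`, solves the equation of the flow, and by
`IsFlow.uniq` (at time `1`) it is `φ t (p, λ op g p v)`: `ex (λ v) = (φ λ z).1` for all real `λ`.
(3) Differentiate this at `λ = 1`: the derivative is `fderiv ex v v` on one side and
`(X (φ 1 z)).1 = vel g (φ 1 z)` on the other side. (4) `ex 0 = (φ 0 z).1 = p` by (2). -/
def NcExp : Prop := ∀ (n : ℕ) (g : Form n) (φ : ℝ → W n → W n) (M : ℝ → W n → W n →L[ℝ] W n),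
  Riem g → IsFlow (XH (Hm g)) φ M → ∀ p : E n, ContDiff ℝ 1 (expo φ g p) ∧
  (∀ v w, fderiv ℝ (expo φ g p) v w = (M 1 (p, op g p v) (0, op g p w)).1) ∧
  (∀ (t : ℝ) v, (φ t (p, op g p v)).1 = expo φ g p (t • v)) ∧
  (∀ v, vel g (φ 1 (p, op g p v)) = fderiv ℝ (expo φ g p) v v) ∧ expo φ g p 0 = p

/-- Gauss lemma.  `z_t = φ t (p, op v)`, `δ_t = M t (p, op v) (0, op w)`, `f t = inner (z_t.2)
(δ_t.1)`.  `f 0 = 0`.  Claim: `f' = DH(z_t) δ_t`, `H = Hm g`.  Indeed `f' = inner (X z).2 δ.1 +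
inner z.2 (DX(z) δ).1` and `(DX(z) δ).1 = Dvel(z) δ` (`StHd`); differentiate `inner y.2 (vel y) =
2 H y` (`StOp`: `inner (op v) v = g v v`, `op (vel y) = y.2`) in the direction `δ`:
`inner δ.2 (vel z) + inner z.2 (Dvel(z) δ) = 2 DH(z) δ`; and by the definition of `X` (`StOp`:
`inner (sh l) w = l w`) `DH(z) δ = - inner (X z).2 δ.1 + inner (X z).1 δ.2`.  Now `H (φ t y) = H y`
(`StGeo1`), so `DH(z_t) δ_t = DH(z_0) δ_0 = DH(p, op v)(0, op w) = inner (X z_0).1 (op w) = g p v w`.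
So `f 1 = g.val p v w`, and `f 1 = inner (op (vel z_1)) δ_1.1 = g.val (ex v) (vel z_1) (D ex v w)`
with `vel z_1 = D ex v v` (`NcExp`). -/
def NcGauss : Prop := ∀ (n : ℕ) (g : Form n) (φ : ℝ → W n → W n)
  (M : ℝ → W n → W n →L[ℝ] W n), Riem g → IsFlow (XH (Hm g)) φ M → ∀ p v w : E n,
  g.val (expo φ g p v) (fderiv ℝ (expo φ g p) v v) (fderiv ℝ (expo φ g p) v w) = g.val p v w

/-- The exponential map is nonsingular.  `J t = (M t z (0, op g p w)).1`, `z = (p, op g p v)`, is a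
Jacobi field along the geodesic `c t = (φ t z).1` (`StGeo1`, `NcLin`, `NcCov`, `deriv c = vel g z_t`).
`J 0 = 0` (`M0`), `J 1 = D ex v w = 0` (`NcExp`).  So `J = 0` and `0 = J' 0 =
Dvel(z)(0, op g p w) = iop g p (op g p w) = w` (`NcLin`; `vel g (p, P) = iop g p P` is linear in
`P`). -/
def NcInj : Prop := ∀ (n : ℕ) (g : Form n) (φ : ℝ → W n → W n) (M : ℝ → W n → W n →L[ℝ] W n),
  Riem g → IsFlow (XH (Hm g)) φ M → NoConj g → ∀ p v w : E n,
  fderiv ℝ (expo φ g p) v w = 0 → w = 0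

/-- Local inverses.  By the inverse function theorem (`ContDiffAt.toOpenPartialHomeomorph`, an
injective linear map of a finite dimensional space is an equivalence) `f` is a local homeomorphism.
Derivative of a lift: near `Γ t` the local inverse `h` of `f` (`HasStrictFDerivAt.localInverse`)
satisfies `h (f y) = y`, so `Γ s = h (γ s)` for `s` near `t`, and `h` has the derivative
`(Df (Γ t))⁻¹` at `γ t` (`HasStrictFDerivAt.to_localInverse`). -/
def NcLoc : Prop := ∀ (n : ℕ) (f : E n → E n), ContDiff ℝ 1 f →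
  (∀ v w, fderiv ℝ f v w = 0 → w = 0) → IsLocalHomeomorph f ∧
  ∀ (γ Γ : ℝ → E n) (t : ℝ), Differentiable ℝ γ → ContinuousAt Γ t →
    (∀ᶠ s in 𝓝 t, f (Γ s) = γ s) →
    ∃ Γ' : E n, HasDerivAt Γ Γ' t ∧ fderiv ℝ f (Γ t) Γ' = deriv γ t

/-- Lifting of paths with an a priori bound.  Let `S` be the set of the `τ ∈ [0, T]` such that a lift
on `[0, τ]` exists (as in the conclusion); `0 ∈ S`, and `S` is downward closed.  Two lifts on
`[0, τ]` agree (`IsSeparatedMap.eqOn_of_comp_eqOn` or a direct argument: the set of agreement is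
closed and, by local injectivity, open in `[0, τ]`).  Let `τ = sup S` and glue the lifts for
`τ' < τ` to a lift `Γ` on `[0, τ)`; its values are in `K`.  Let `u'` be a cluster point of `Γ t` as
`t` tends to `τ` from below (`K` is compact); `f u' = γ τ`.  Let `h` be a local homeomorphism inverse
of `f` from an open `V` containing `γ τ` to an open `U` containing `u'` (`f` is injective on `U`), and
`δ > 0` with `γ t ∈ V` for `|t - τ| < δ`.  For some `t₁ ∈ (τ - δ, τ)` we have `Γ t₁ ∈ U`, so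
`Γ t₁ = h (γ t₁)`, and by uniqueness of lifts `Γ = h ∘ γ` on `(τ - δ, τ)`.  So `Γ` is continued by
`h ∘ γ` to `[0, τ + δ)`: `τ ∈ S`, and if `τ < T` then `S` has elements larger than `τ`. (If
`τ = 0` take `u' = u`.)  So `τ = T ∈ S`. -/
def NcLift : Prop := ∀ (n : ℕ) (f : E n → E n), IsLocalHomeomorph f →
  ∀ (γ : ℝ → E n), Continuous γ → ∀ (T : ℝ) (u : E n) (K : Set (E n)), 0 ≤ T → f u = γ 0 →
  IsCompact K →
  (∀ (τ : ℝ) (Γ : ℝ → E n), 0 ≤ τ → τ ≤ T → ContinuousOn Γ (Icc 0 τ) → Γ 0 = u →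
    (∀ t ∈ Icc 0 τ, f (Γ t) = γ t) → Γ τ ∈ K) →
  ∃ Γ : ℝ → E n, ContinuousOn Γ (Icc 0 T) ∧ Γ 0 = u ∧ ∀ t ∈ Icc 0 T, f (Γ t) = γ t

/-- Lifts do not increase the radius.  Let `ρ t = nrm g p (Γ t)`, `ε > 0`.  For `t ∈ (0, τ)` by
`NcLoc` `Γ` has a derivative `Γ'` with `D ex (Γ t) Γ' = γ' t`; so `(ρ^2)' = 2 g p (Γ, Γ')
= 2 g (γ t) (D ex(Γ) Γ, γ')` by `NcGauss`, and by Cauchy-Schwarz for the form `g (γ t)` and
`NcGauss` again (`g (D ex(Γ) Γ, D ex(Γ) Γ) = ρ^2`) `|(ρ^2)'| ≤ 2 ρ nrm g (γ t) (γ' t)`.  So the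
derivative of `(ε + ρ^2)^(1/2)` is at most `nrm g (γ t) (γ' t)`, and
`∫ 0..t nrm g γ γ' - (ε + ρ^2)^(1/2)` is monotone on `[0, τ]` (`monotoneOn_of_deriv_nonneg`, it is
continuous on `[0, τ]`).  Let `ε` tend to `0`. -/
def NcBd : Prop := ∀ (n : ℕ) (g : Form n) (φ : ℝ → W n → W n) (M : ℝ → W n → W n →L[ℝ] W n),
  Riem g → IsFlow (XH (Hm g)) φ M → ∀ p : E n, (∀ v w, fderiv ℝ (expo φ g p) v w = 0 → w = 0) →
  ∀ (γ Γ : ℝ → E n) (τ : ℝ), ContDiff ℝ 1 γ → 0 ≤ τ → ContinuousOn Γ (Icc 0 τ) →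
  (∀ t ∈ Icc 0 τ, expo φ g p (Γ t) = γ t) →
  nrm g p (Γ τ) ≤ nrm g p (Γ 0) + ∫ t in (0 : ℝ)..τ, nrm g (γ t) (deriv γ t)

/-- Lifts exist for all `C^1` paths: `NcLift` with `K = {w | nrm g p w ≤ r}`, `r = nrm g p u +
∫ 0..T` (closed, and bounded by `StBnd` for the compact set `{p}`); the a priori bound is `NcBd`
(the integral over `[0, τ]` is at most the one over `[0, T]`); `IsLocalHomeomorph` by `NcLoc`
(`NcExp`: `ex` is `C^1`). -/
def NcLf : Prop := ∀ (n : ℕ) (g : Form n) (φ : ℝ → W n → W n) (M : ℝ → W n → W n →L[ℝ] W n),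
  Riem g → IsFlow (XH (Hm g)) φ M → ∀ p : E n, (∀ v w, fderiv ℝ (expo φ g p) v w = 0 → w = 0) →
  ∀ (γ : ℝ → E n) (T : ℝ) (u : E n), ContDiff ℝ 1 γ → 0 ≤ T → expo φ g p u = γ 0 →
  ∃ Γ : ℝ → E n, ContinuousOn Γ (Icc 0 T) ∧ Γ 0 = u ∧
    (∀ t ∈ Icc 0 T, expo φ g p (Γ t) = γ t) ∧
    nrm g p (Γ T) ≤ nrm g p u + ∫ t in (0 : ℝ)..T, nrm g (γ t) (deriv γ t)

/-- Lifts of piecewise `C^1` paths.  Induction on `PathLen`: for `cons c a b y l` apply `NcLf` to
`γ t = c (a + t)`, `T = b - a` (substitution in the integral) and the induction hypothesis to the end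
point. -/
def NcLe : Prop := ∀ (n : ℕ) (g : Form n) (φ : ℝ → W n → W n) (M : ℝ → W n → W n →L[ℝ] W n),
  Riem g → IsFlow (XH (Hm g)) φ M → ∀ p : E n, (∀ v w, fderiv ℝ (expo φ g p) v w = 0 → w = 0) →
  ∀ (x y : E n) (l : ℝ), PathLen g x y l → ∀ u : E n, expo φ g p u = x →
  ∃ u' : E n, expo φ g p u' = y ∧ nrm g p u' ≤ nrm g p u + l

/-- The exponential map is injective.  Let `ex u = ex v`.  For `s ∈ [0, 1]` the path
`γ_s t = (1 - s) ex (t u) + s ex (t v)` is `C^1`, starts in `ex 0 = p` and ends in `ex u`; let `Γ_s` be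
a lift with `Γ_s 0 = 0` (`NcLf`, `T = 1`).  `IsLocalHomeomorph.monodromy_theorem` (Mathlib,
Topology/Homotopy/Lifting; `f = ex`, separated since the space is Hausdorff) gives
`Γ_s 1 = Γ_0 1` for all `s`.  Lifts are unique, so `Γ_0 t = t u` and `Γ_1 t = t v`: `u = v`. -/
def NcOne : Prop := ∀ (n : ℕ) (g : Form n) (φ : ℝ → W n → W n) (M : ℝ → W n → W n →L[ℝ] W n),
  Riem g → IsFlow (XH (Hm g)) φ M → ∀ p : E n, (∀ v w, fderiv ℝ (expo φ g p) v w = 0 → w = 0) →
  Function.Injective (expo φ g p)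

/-- Distances.  Surjective: for `y` take the straight path from `p` to `y` and `NcLe` with `u = 0`
(`StGd`: some `PathLen g p y l` exists).  `gd g p (ex v) ≤ nrm g p v`: the curve `t ↦ ex (t v)` on
`[0, 1]` has the speed `nrm g p v` (its velocity is `vel g (φ t z)` and the energy is constant,
`StGeo1`, `StOp`; `NcExp`).  `≥`: a path of length `l` from `p` to `ex v` gives by `NcLe` (with
`u = 0`) a `u'` with `ex u' = ex v`, `nrm g p u' ≤ l`, and `u' = v` by `NcOne`; take the infimum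
(`StGd`). -/
def NcDist : Prop := ∀ (n : ℕ) (g : Form n) (φ : ℝ → W n → W n) (M : ℝ → W n → W n →L[ℝ] W n),
  Riem g → IsFlow (XH (Hm g)) φ M → ∀ p : E n, (∀ v w, fderiv ℝ (expo φ g p) v w = 0 → w = 0) →
  Function.Bijective (expo φ g p) ∧ ∀ v, gd g p (expo φ g p v) = nrm g p v

/-- Geodesics are given by the exponential map: `c t = ex_{c s} ((t - s) c' s)`.  By `StGeo2`
`y r = (c (s + r), op g c c')` solves the equation of the flow, so `y r = φ r (y 0)` for `r ≥ 0`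
(`IsFlow.uniq`); for `r < 0` apply this to the solution starting at `s + r`, and the group property
`IsFlow.add`.  Then `NcExp`. -/
def NcGx : Prop := ∀ (n : ℕ) (g : Form n) (φ : ℝ → W n → W n) (M : ℝ → W n → W n →L[ℝ] W n),
  Riem g → IsFlow (XH (Hm g)) φ M → ∀ c : ℝ → E n, IsGeo g c → ∀ s t : ℝ,
  (c t, op g (c t) (deriv c t)) = φ (t - s) (c s, op g (c s) (deriv c s)) ∧
  c t = expo φ g (c s) ((t - s) • deriv c s)

/-- THEOREM NC, general form: a metric of `R^n` with complete geodesic flow and without conjugate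
points.  `NcInj`, `NcDist` and `NcGx`: `gd g (c s) (c t) = nrm g (c s) ((t - s) c' s) = |t - s|`. -/
def NcMinz : Prop := ∀ (n : ℕ) (g : Form n) (φ : ℝ → W n → W n) (M : ℝ → W n → W n →L[ℝ] W n),
  Riem g → IsFlow (XH (Hm g)) φ M → NoConj g → Minz g

/-- THEOREM NC for closed manifolds: `NcMinz` with the flow of `StFlow`. -/
def StNC : Prop := ∀ (n : ℕ) (G : Type) [Group G] [MulAction G (E n)], Cocompact n G →
  ∀ g : Form n, Riem g → Inv G g → NoConj g → Minz g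

end Pool.Agent.MLS
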