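import Pool.Agent.Work.MP_25cd3b_gt.NC.Stmts

set_option autoImplicit false
set_option maxSynthPendingDepth 3

/-!
# Lifts through the exponential map do not increase the radius
-/

open MeasureTheory Set Filter Topology
open scoped ContDiff ENNReal
open Pool.Agent.Work.MP_c9f990_an.Al (IsFlow)

namespace Pool.Agent.MLS

namespace JNCBd

variable {n : ℕ}

/-- Cauchy-Schwarz for a positive semidefinite form -/
theorem cs (g : Form n) (x u v : E n) : g.val x u v ≤ nrm g x u * nrm g x v := by
  have hq : ∀ s : ℝ, 0 ≤ g.val x v v * (s * s) + (2 * g.val x u v) * s + g.val x u u := by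
    intro s
    have h := g.nonneg x (u + s • v)
    have e : g.val x (u + s • v) (u + s • v) =
        g.val x v v * (s * s) + (2 * g.val x u v) * s + g.val x u u := by
      have h2 := g.symm x v u
      simp only [map_add, map_smul, ContinuousLinearMap.add_apply, ContinuousLinearMap.smul_apply,
        smul_eq_mul]
      rw [h2]
      ring
    rw [e] at h
    exact h
  have hd := discrim_le_zero hq
  rw [discrim] at hd
  have h1 : g.val x u v ^ 2 ≤ g.val x u u * g.val x v v := by nlinarith
  unfold nrm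
  rw [← Real.sqrt_mul (g.nonneg x u)]
  exact Real.le_sqrt_of_sq_le h1

/-- the speed of a `C^1` curve is continuous -/
theorem speed_cont (g : Form n) (γ : ℝ → E n) (hγ : ContDiff ℝ 1 γ) :
    Continuous (fun t => nrm g (γ t) (deriv γ t)) := by
  have h1 : Continuous (fun t => g.val (γ t)) := g.smooth.continuous.comp hγ.continuous
  have h2 : Continuous (deriv γ) := hγ.continuous_deriv le_rfl
  unfold nrm
  exact Real.continuous_sqrt.comp ((h1.clm_apply h2).clm_apply h2)

end JNCBd

open JNCBd in
/-- Lifts through the exponential map do not increase the radius. -/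
theorem pr_NcBd (h1 : NcLoc) (h2 : NcExp) (h3 : NcGauss) : NcBd := by
  intro n g φ M hR hF p hinj γ Γ τ hγ hτ hΓ hlift
  obtain ⟨hC, -, -, -, -⟩ := h2 n g φ M hR hF p
  have hgauss := h3 n g φ M hR hF p
  obtain ⟨-, hloc⟩ := h1 n (expo φ g p) hC hinj
  have hsp := speed_cont g γ hγ
  have hdγ : Differentiable ℝ γ := hγ.differentiable (by norm_num)
  have hρc : ContinuousOn (fun t => g.val p (Γ t) (Γ t)) (Icc 0 τ) := by
    have hc : Continuous (fun w : E n => g.val p w w) :=
      (g.val p).continuous.clm_apply continuous_id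
    exact hc.comp_continuousOn hΓ
  have key : ∀ ε : ℝ, 0 < ε → Real.sqrt (ε + g.val p (Γ τ) (Γ τ)) ≤
      Real.sqrt (ε + g.val p (Γ 0) (Γ 0)) + ∫ t in (0 : ℝ)..τ, nrm g (γ t) (deriv γ t) := by
    intro ε hε
    have hder : ∀ t ∈ Ioo 0 τ, ∃ d : ℝ, 0 ≤ d ∧
        HasDerivAt (fun u => (∫ s in (0 : ℝ)..u, nrm g (γ s) (deriv γ s)) -
          Real.sqrt (ε + g.val p (Γ u) (Γ u))) d t := by
      intro t ht
      have hn : Icc 0 τ ∈ 𝓝 t := Icc_mem_nhds ht.1 ht.2
      have hca : ContinuousAt Γ t := hΓ.continuousAt hn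
      have hev : ∀ᶠ s in 𝓝 t, expo φ g p (Γ s) = γ s := by
        filter_upwards [hn] with s hs using hlift s hs
      obtain ⟨Γ', hΓ', hD⟩ := hloc γ Γ t hdγ hca hev
      have hI : HasDerivAt (fun u => ∫ s in (0 : ℝ)..u, nrm g (γ s) (deriv γ s))
          (nrm g (γ t) (deriv γ t)) t :=
        intervalIntegral.integral_hasDerivAt_right (hsp.intervalIntegrable _ _)
          hsp.stronglyMeasurable.stronglyMeasurableAtFilter hsp.continuousAt
      have hg1 : HasDerivAt (fun u => g.val p (Γ u)) (g.val p Γ') t :=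
        (g.val p).hasFDerivAt.comp_hasDerivAt t hΓ'
      have hg2 : HasDerivAt (fun u => g.val p (Γ u) (Γ u))
          (g.val p Γ' (Γ t) + g.val p (Γ t) Γ') t := hg1.clm_apply hΓ'
      have hpos : 0 < ε + g.val p (Γ t) (Γ t) := by
        have := g.nonneg p (Γ t)
        linarith
      have hs : HasDerivAt (fun u => Real.sqrt (ε + g.val p (Γ u) (Γ u)))
          ((g.val p Γ' (Γ t) + g.val p (Γ t) Γ') /
            (2 * Real.sqrt (ε + g.val p (Γ t) (Γ t)))) t :=
        (hg2.const_add ε).sqrt hpos.ne'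
      refine ⟨_, ?_, hI.sub hs⟩
      have hsq : 0 < Real.sqrt (ε + g.val p (Γ t) (Γ t)) := Real.sqrt_pos.2 hpos
      have hG : g.val p (Γ t) Γ' ≤ nrm g p (Γ t) * nrm g (γ t) (deriv γ t) := by
        have e1 := hgauss (Γ t) Γ'
        have e2 := hgauss (Γ t) (Γ t)
        rw [hlift t (Ioo_subset_Icc_self ht), hD] at e1
        rw [hlift t (Ioo_subset_Icc_self ht)] at e2
        have hc := cs g (γ t) (fderiv ℝ (expo φ g p) (Γ t) (Γ t)) (deriv γ t)
        rw [e1] at hc
        have e3 : nrm g (γ t) (fderiv ℝ (expo φ g p) (Γ t) (Γ t)) = nrm g p (Γ t) := by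
          unfold nrm
          rw [e2]
        rwa [e3] at hc
      have hle : nrm g p (Γ t) ≤ Real.sqrt (ε + g.val p (Γ t) (Γ t)) := by
        unfold nrm
        exact Real.sqrt_le_sqrt (by linarith)
      have hn0 : 0 ≤ nrm g (γ t) (deriv γ t) := Real.sqrt_nonneg _
      have hsym : g.val p Γ' (Γ t) = g.val p (Γ t) Γ' := g.symm _ _ _
      rw [hsym, sub_nonneg, div_le_iff₀ (by positivity)]
      have h5 : nrm g p (Γ t) * nrm g (γ t) (deriv γ t) ≤
          Real.sqrt (ε + g.val p (Γ t) (Γ t)) * nrm g (γ t) (deriv γ t) :=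
        mul_le_mul_of_nonneg_right hle hn0
      nlinarith
    have hmono : MonotoneOn (fun u => (∫ s in (0 : ℝ)..u, nrm g (γ s) (deriv γ s)) -
          Real.sqrt (ε + g.val p (Γ u) (Γ u))) (Icc 0 τ) := by
      apply monotoneOn_of_deriv_nonneg (convex_Icc 0 τ)
      · apply ContinuousOn.sub
        · exact (intervalIntegral.continuous_primitive
            (fun a b => hsp.intervalIntegrable a b) 0).continuousOn
        · exact Real.continuous_sqrt.comp_continuousOn (continuousOn_const.add hρc)
      · rw [interior_Icc]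
        intro t ht
        obtain ⟨d, -, hd⟩ := hder t ht
        exact hd.differentiableAt.differentiableWithinAt
      · rw [interior_Icc]
        intro t ht
        obtain ⟨d, hd0, hd⟩ := hder t ht
        rw [hd.deriv]
        exact hd0
    have h0 := hmono (left_mem_Icc.2 hτ) (right_mem_Icc.2 hτ) hτ
    simp only [intervalIntegral.integral_same, zero_sub] at h0
    linarith
  refine le_of_forall_pos_le_add fun δ hδ => ?_
  have hk := key (δ ^ 2) (by positivity)
  have ha : nrm g p (Γ τ) ≤ Real.sqrt (δ ^ 2 + g.val p (Γ τ) (Γ τ)) := by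
    unfold nrm
    exact Real.sqrt_le_sqrt (by nlinarith)
  have hb : Real.sqrt (δ ^ 2 + g.val p (Γ 0) (Γ 0)) ≤ δ + nrm g p (Γ 0) := by
    unfold nrm
    rw [Real.sqrt_le_left (by positivity)]
    have h6 := Real.sq_sqrt (g.nonneg p (Γ 0))
    have h7 := Real.sqrt_nonneg (g.val p (Γ 0) (Γ 0))
    nlinarith [mul_nonneg hδ.le h7]
  linarith

end Pool.Agent.MLS
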