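import Pool.Agent.Work.MP_25cd3b_gt.NC.Stmts

set_option autoImplicit false
set_option maxSynthPendingDepth 3

open MeasureTheory Set Filter Topology
open scoped ContDiff ENNReal

namespace Pool.Agent.MLS

namespace JNCCov

/-- derivative of the symmetry of the Christoffel symbols -/
lemma fderiv_symm {n : ℕ} {g : Form n} (hs : ContDiff ℝ ∞ (Ga g))
    (hsym : ∀ x u v, Ga g x u v = Ga g x v u) (x w u v : E n) :
    fderiv ℝ (Ga g) x w u v = fderiv ℝ (Ga g) x w v u := by
  have hd : HasFDerivAt (Ga g) (fderiv ℝ (Ga g) x) x :=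
    ((hs.differentiable (by norm_num)) x).hasFDerivAt
  have key : ∀ a b : E n, fderiv ℝ (fun y => Ga g y a b) x w = fderiv ℝ (Ga g) x w a b := by
    intro a b
    have h1 := (hd.clm_apply (hasFDerivAt_const a x)).clm_apply (hasFDerivAt_const b x)
    rw [h1.fderiv]
    simp
  rw [← key u v, ← key v u]
  congr 2
  funext y
  exact hsym y u v

/-- derivative of `t ↦ Ga g (c t) (X t) (Y t)` -/
lemma hasDerivAt_Ga {n : ℕ} {g : Form n} (hs : ContDiff ℝ ∞ (Ga g)) {c X Y : ℝ → E n}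
    {c' X' Y' : E n} {t : ℝ} (hc : HasDerivAt c c' t) (hX : HasDerivAt X X' t)
    (hY : HasDerivAt Y Y' t) :
    HasDerivAt (fun s => Ga g (c s) (X s) (Y s))
      (fderiv ℝ (Ga g) (c t) c' (X t) (Y t) + Ga g (c t) X' (Y t) + Ga g (c t) (X t) Y') t := by
  have hd : HasFDerivAt (Ga g) (fderiv ℝ (Ga g) (c t)) (c t) :=
    ((hs.differentiable (by norm_num)) (c t)).hasFDerivAt
  have h0 : HasDerivAt (fun s => Ga g (c s)) (fderiv ℝ (Ga g) (c t) c') t :=
    hd.comp_hasDerivAt t hc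
  have h1 := (h0.clm_apply hX).clm_apply hY
  refine h1.congr_deriv ?_
  rw [_root_.add_apply]

end JNCCov

open JNCCov in
theorem pr_NcCov (h1 : NcGa) (h2 : NcGeo) : NcCov := by
  intro n g hg c J hgeo hJ hJ2
  obtain ⟨hs, -, hsym, -⟩ := h1 n g hg
  obtain ⟨hc2, hcc⟩ := (h2 n g hg c).1 hgeo
  refine ⟨hJ, fun t => ?_⟩
  have hc : ∀ s, HasDerivAt c (deriv c s) s := fun s =>
    ((hc2.differentiable (by norm_num)) s).hasDerivAt
  have hJ1 : ∀ s, HasDerivAt J (deriv J s) s := fun s =>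
    ((hJ.differentiable (by norm_num)) s).hasDerivAt
  have hY : HasDerivAt (cov g c J)
      ((-(fderiv ℝ (Ga g) (c t) (J t) (deriv c t) (deriv c t)) -
        (2 : ℝ) • Ga g (c t) (deriv c t) (deriv J t)) +
        (fderiv ℝ (Ga g) (c t) (deriv c t) (deriv c t) (J t) +
          Ga g (c t) (-(Ga g (c t) (deriv c t) (deriv c t))) (J t) +
          Ga g (c t) (deriv c t) (deriv J t))) t :=
    (hJ2 t).add (hasDerivAt_Ga hs (hc t) (hcc t) (hJ1 t))
  unfold cov at hY ⊢
  rw [hY.deriv]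
  unfold Rm
  rw [fderiv_symm hs hsym (c t) (deriv c t) (J t) (deriv c t),
    hsym (c t) (J t) (deriv c t), hsym (c t) (J t) (Ga g (c t) (deriv c t) (deriv c t))]
  rw [map_neg, _root_.neg_apply, map_add]
  module

end Pool.Agent.MLS
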