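import Pool.Agent.Work.MP_25cd3b_gt.NC.Stmts

set_option autoImplicit false
set_option maxSynthPendingDepth 3

/-! # No conjugate points, item Dist: bijectivity of the exponential map and distances -/

open MeasureTheory Set Filter Topology
open scoped ContDiff ENNReal
open Pool.Agent.Work.MP_c9f990_an.Al (IsFlow)

namespace Pool.Agent.MLS

theorem pr_NcDist (h1 : StGd) (h2 : StOp) (h3 : StGeo1) (h4 : NcExp) (h5 : NcLe) (h6 : NcOne) :
    NcDist := by
  intro n g φ M hg hφ p hinj
  obtain ⟨hC1, -, hhom, -, h0⟩ := h4 n g φ M hg hφ p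
  obtain ⟨-, -, happ, hcurve⟩ := h1 n g
  have hone : Function.Injective (expo φ g p) := h6 n g φ M hg hφ p hinj
  obtain ⟨-, -, hiop, -, -, -, -, -, hHm⟩ := h2 n g hg
  have hnrm0 : nrm g p (0 : E n) = 0 := by simp [nrm]
  refine ⟨⟨hone, fun y => ?_⟩, fun v => ?_⟩
  · obtain ⟨l, hl, -⟩ := happ p y 1 one_pos
    obtain ⟨u, hu, -⟩ := h5 n g φ M hg hφ p hinj p y l hl 0 h0
    exact ⟨u, hu⟩
  · apply le_antisymm
    · -- the curve `t ↦ ex (t v)`
      set z : W n := (p, op g p v) with hz
      have hvz : vel g z = v := hiop p v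
      obtain ⟨-, hder, hen⟩ := h3 n g hg (fun s => φ s z) (fun t => hφ.ode z t)
      have hcv : (fun t : ℝ => expo φ g p (t • v)) = fun t => (φ t z).1 := by
        funext t
        exact (hhom t v).symm
      have hcC1 : ContDiff ℝ 1 (fun t : ℝ => expo φ g p (t • v)) :=
        hC1.comp (contDiff_id.smul contDiff_const)
      have hsp : ∀ t : ℝ, nrm g (expo φ g p (t • v))
          (deriv (fun t : ℝ => expo φ g p (t • v)) t) = nrm g p v := by
        intro t
        have e1 : expo φ g p (t • v) = (φ t z).1 := (hhom t v).symm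
        rw [hcv, hder t, e1]
        have e2 := hen t
        rw [hHm, hHm, hφ.zero z, hvz] at e2
        unfold nrm
        congr 1
        have e3 : (z : W n).1 = p := rfl
        rw [e3] at e2
        linarith
      have h := hcurve (fun t : ℝ => expo φ g p (t • v)) 0 1 hcC1 zero_le_one
      have e4 : (∫ t in (0 : ℝ)..1, nrm g (expo φ g p (t • v))
          (deriv (fun t : ℝ => expo φ g p (t • v)) t)) = nrm g p v := by
        rw [intervalIntegral.integral_congr (g := fun _ => nrm g p v) (fun t _ => hsp t)]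
        simp
      have h' : gd g (expo φ g p ((0 : ℝ) • v)) (expo φ g p ((1 : ℝ) • v)) ≤ nrm g p v := by
        rw [← e4]; exact h
      rwa [zero_smul, one_smul, h0] at h'
    · apply le_of_forall_pos_le_add
      intro ε hε
      obtain ⟨l, hl, hlt⟩ := happ p (expo φ g p v) ε hε
      obtain ⟨u, hu, hr⟩ := h5 n g φ M hg hφ p hinj p _ l hl 0 h0
      rw [hone hu, hnrm0, zero_add] at hr
      linarith

end Pool.Agent.MLS
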