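import Pool.Agent.Work.MP_25cd3b_gt.NC.Stmts

set_option autoImplicit false
set_option maxSynthPendingDepth 3

/-!
# Item NC Exp: the exponential map
-/

open MeasureTheory Set Filter Topology
open scoped ContDiff ENNReal
open Pool.Agent.Work.MP_c9f990_an.Al (IsFlow)

namespace Pool.Agent.MLS

namespace JNCExp

/-- homogeneity of the Hamiltonian field -/
theorem XH_smul (h2 : StHd) {n : ℕ} (g : Form n) (hg : Riem g) (x P : E n) (r : ℝ) :
    XH (Hm g) (x, r • P) = (r • (XH (Hm g) (x, P)).1, r ^ 2 • (XH (Hm g) (x, P)).2) := by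
  have hv : vel g (x, r • P) = r • vel g (x, P) := by
    show iop g x (r • P) = r • iop g x P
    rw [map_smul]
  refine Prod.ext ?_ ?_
  · show (XH (Hm g) (x, r • P)).1 = r • (XH (Hm g) (x, P)).1
    rw [(h2 n g hg (x, r • P)).1, (h2 n g hg (x, P)).1, hv]
  · show (XH (Hm g) (x, r • P)).2 = r ^ 2 • (XH (Hm g) (x, P)).2
    refine ext_inner_right ℝ (fun w => ?_)
    rw [(h2 n g hg (x, r • P)).2 w, inner_smul_left, (h2 n g hg (x, P)).2 w, hv]
    simp only [map_smul, ContinuousLinearMap.smul_apply, smul_eq_mul, conj_trivial]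
    ring

/-- homogeneity of the flow -/
theorem flow_smul (h2 : StHd) {n : ℕ} (g : Form n) (hg : Riem g)
    {φ : ℝ → W n → W n} {M : ℝ → W n → W n →L[ℝ] W n} (hφ : IsFlow (XH (Hm g)) φ M)
    (x P : E n) (r : ℝ) : (φ r (x, P)).1 = (φ 1 (x, r • P)).1 := by
  have hu := hφ.uniq (fun s => ((φ (r * s) (x, P)).1, r • (φ (r * s) (x, P)).2)) ?_ 1 zero_le_one
  · have h3 := congrArg Prod.fst hu
    simp only [mul_one, mul_zero, hφ.zero] at h3
    exact h3
  · intro t _
    refine HasDerivAt.hasDerivWithinAt ?_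
    have h3 : HasDerivAt (fun s : ℝ => r * s) r t := by
      simpa using (hasDerivAt_id t).const_mul r
    have h4 : HasDerivAt (fun s => φ (r * s) (x, P)) (r • XH (Hm g) (φ (r * t) (x, P))) t :=
      (hφ.ode (x, P) (r * t)).scomp t h3
    have h5 : HasDerivAt (fun s => (φ (r * s) (x, P)).1)
        (r • (XH (Hm g) (φ (r * t) (x, P))).1) t :=
      (ContinuousLinearMap.fst ℝ (E n) (E n)).hasFDerivAt.comp_hasDerivAt t h4
    have h5' : HasDerivAt (fun s => (φ (r * s) (x, P)).2)
        (r • (XH (Hm g) (φ (r * t) (x, P))).2) t :=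
      (ContinuousLinearMap.snd ℝ (E n) (E n)).hasFDerivAt.comp_hasDerivAt t h4
    have h6 : HasDerivAt (fun s => r • (φ (r * s) (x, P)).2)
        (r • (r • (XH (Hm g) (φ (r * t) (x, P))).2)) t := h5'.const_smul r
    have h7 : HasDerivAt (fun s => (((φ (r * s) (x, P)).1, r • (φ (r * s) (x, P)).2) : W n))
        (r • (XH (Hm g) (φ (r * t) (x, P))).1, r • (r • (XH (Hm g) (φ (r * t) (x, P))).2)) t :=
      h5.prodMk h6
    have h8 := XH_smul h2 g hg (φ (r * t) (x, P)).1 (φ (r * t) (x, P)).2 r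
    rw [smul_smul, ← pow_two] at h7
    show HasDerivAt _ (XH (Hm g) ((φ (r * t) (x, P)).1, r • (φ (r * t) (x, P)).2)) t
    rw [h8]
    exact h7

/-- derivative of the exponential map -/
noncomputable def D {n : ℕ} (M : ℝ → W n → W n →L[ℝ] W n) (g : Form n) (p v : E n) :
    E n →L[ℝ] E n :=
  (ContinuousLinearMap.fst ℝ (E n) (E n)).comp
    ((M 1 (p, op g p v)).comp ((0 : E n →L[ℝ] E n).prod (op g p)))

theorem hasFDerivAt_expo {n : ℕ} (g : Form n) {φ : ℝ → W n → W n} {M : ℝ → W n → W n →L[ℝ] W n}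
    (hφ : IsFlow (XH (Hm g)) φ M) (p v : E n) : HasFDerivAt (expo φ g p) (D M g p v) v := by
  have h1 : HasFDerivAt (fun w : E n => ((p, op g p w) : W n))
      ((0 : E n →L[ℝ] E n).prod (op g p)) v :=
    (hasFDerivAt_const p v).prodMk (op g p).hasFDerivAt
  have h2 := (hφ.diff 1 (p, op g p v)).comp v h1
  exact (ContinuousLinearMap.fst ℝ (E n) (E n)).hasFDerivAt.comp v h2

theorem D_apply {n : ℕ} (g : Form n) (M : ℝ → W n → W n →L[ℝ] W n) (p v w : E n) :
    D M g p v w = (M 1 (p, op g p v) (0, op g p w)).1 := rfl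

theorem continuous_D {n : ℕ} (g : Form n) {φ : ℝ → W n → W n} {M : ℝ → W n → W n →L[ℝ] W n}
    (hφ : IsFlow (XH (Hm g)) φ M) (p : E n) : Continuous (D M g p) := by
  have h1 : Continuous (fun v : E n => M 1 (p, op g p v)) := by
    have h2 : Continuous (fun v : E n => ((1 : ℝ), ((p, op g p v) : W n))) :=
      continuous_const.prodMk (continuous_const.prodMk (op g p).continuous)
    exact hφ.Mcont.comp h2
  exact continuous_const.clm_comp (h1.clm_comp continuous_const)

end JNCExp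

open JNCExp in
theorem pr_NcExp (_h1 : StOp) (h2 : StHd) : NcExp := by
  intro n g φ M hg hφ p
  have hd : ∀ v, HasFDerivAt (expo φ g p) (D M g p v) v := fun v => hasFDerivAt_expo g hφ p v
  have h3 : ∀ (t : ℝ) v, (φ t (p, op g p v)).1 = expo φ g p (t • v) := by
    intro t v
    rw [flow_smul h2 g hg hφ p (op g p v) t, ← map_smul]
    rfl
  refine ⟨contDiff_one_iff_hasFDerivAt.2 ⟨D M g p, continuous_D g hφ p, hd⟩, fun v w => ?_, h3,
    fun v => ?_, ?_⟩
  · rw [(hd v).fderiv, D_apply]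
  · have h4 : HasDerivAt (fun s : ℝ => expo φ g p (s • v)) (fderiv ℝ (expo φ g p) v v) 1 := by
      have h5 : HasDerivAt (fun s : ℝ => s • v) v 1 := by
        simpa using (hasDerivAt_id (1 : ℝ)).smul_const v
      have h6 : HasFDerivAt (expo φ g p) (fderiv ℝ (expo φ g p) v) ((1 : ℝ) • v) := by
        rw [one_smul, (hd v).fderiv]
        exact hd v
      exact h6.comp_hasDerivAt 1 h5
    have h7 : HasDerivAt (fun s : ℝ => expo φ g p (s • v)) (vel g (φ 1 (p, op g p v))) 1 := by
      have h8 : HasDerivAt (fun s => (φ s (p, op g p v)).1)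
          (XH (Hm g) (φ 1 (p, op g p v))).1 1 :=
        (ContinuousLinearMap.fst ℝ (E n) (E n)).hasFDerivAt.comp_hasDerivAt 1
          (hφ.ode (p, op g p v) 1)
      rw [(h2 n g hg _).1] at h8
      refine h8.congr_of_eventuallyEq (Eventually.of_forall (fun s => ?_))
      exact (h3 s v).symm
    exact h7.unique h4
  · have h4 := h3 0 0
    rw [hφ.zero, smul_zero] at h4
    exact h4.symm

end Pool.Agent.MLS
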