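import Pool.Agent.Work.MP_25cd3b_gt.NC.Stmts

set_option autoImplicit false
set_option maxSynthPendingDepth 3

/-!
# Christoffel symbols: smoothness, symmetry, Koszul formula
-/

open MeasureTheory Set Filter Topology
open scoped ContDiff ENNReal

namespace Pool.Agent.MLS

namespace JNCGa

theorem formula {n : ℕ} (g : Form n) (x u v : E n) : Ga g x u v = (1 / 2 : ℝ) •
    (iop g x (sh (fderiv ℝ g.val x u v)) + iop g x (sh (fderiv ℝ g.val x v u)) -
      iop g x (sh (((fderiv ℝ g.val x).flip u).flip v))) := by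
  simp [Ga]

theorem hd {n : ℕ} (g : Form n) (x u v : E n) :
    HasFDerivAt (fun y => g.val y u v) (((fderiv ℝ g.val x).flip u).flip v) x := by
  have h0 : HasFDerivAt g.val (fderiv ℝ g.val x) x :=
    (g.smooth.differentiable (by norm_num) x).hasFDerivAt
  have h1 := (h0.clm_apply (hasFDerivAt_const u x)).clm_apply (hasFDerivAt_const v x)
  refine h1.congr_fderiv ?_
  ext w
  simp

theorem fsymm {n : ℕ} (g : Form n) (x w u v : E n) :
    fderiv ℝ g.val x w u v = fderiv ℝ g.val x w v u := by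
  have h1 := hd g x u v
  have h2 := hd g x v u
  have h3 : (fun y => g.val y u v) = fun y => g.val y v u := by
    funext y
    exact g.symm y u v
  rw [h3] at h1
  have h4 := congrArg (fun l : E n →L[ℝ] ℝ => l w) (h1.unique h2)
  simpa using h4

theorem smooth {n : ℕ} (g : Form n) (h : ContDiff ℝ ∞ (iop g)) : ContDiff ℝ ∞ (Ga g) := by
  have h1 : ContDiff ℝ ∞ (fderiv ℝ g.val) := g.smooth.fderiv_right (by norm_num)
  have h2 : ContDiff ℝ ∞ (fun x => (iop g x).comp (sh : (E n →L[ℝ] ℝ) →L[ℝ] E n)) :=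
    h.clm_comp contDiff_const
  have h3 : ContDiff ℝ ∞ (fun x =>
      ContinuousLinearMap.compL ℝ (E n) (E n →L[ℝ] ℝ) (E n) ((iop g x).comp sh)) :=
    (ContinuousLinearMap.contDiff _).comp h2
  have h4 : ContDiff ℝ ∞ (fun x =>
      (ContinuousLinearMap.compL ℝ (E n) (E n →L[ℝ] ℝ) (E n) ((iop g x).comp sh)).comp
        (fderiv ℝ g.val x)) := h3.clm_comp h1
  have h5 : ContDiff ℝ ∞ (fun x =>
      ((ContinuousLinearMap.compL ℝ (E n) (E n →L[ℝ] ℝ) (E n) ((iop g x).comp sh)).comp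
        (fderiv ℝ g.val x)).flip) :=
    (ContinuousLinearMap.flipₗᵢ ℝ (E n) (E n) (E n)).toContinuousLinearEquiv.contDiff.comp h4
  have h6 : ContDiff ℝ ∞ (fun x => (fderiv ℝ g.val x).flip) :=
    (ContinuousLinearMap.flipₗᵢ ℝ (E n) (E n) (E n →L[ℝ] ℝ)).toContinuousLinearEquiv.contDiff.comp
      h1
  have h7 : ContDiff ℝ ∞ (fun x =>
      (ContinuousLinearMap.compL ℝ (E n) (E n →L[ℝ] ℝ) (E n) ((iop g x).comp sh)).comp
        (((ContinuousLinearMap.flipₗᵢ ℝ (E n) (E n) ℝ).toContinuousLinearEquiv :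
          (E n →L[ℝ] E n →L[ℝ] ℝ) →L[ℝ] (E n →L[ℝ] E n →L[ℝ] ℝ)).comp
          (fderiv ℝ g.val x).flip)) := h3.clm_comp (contDiff_const.clm_comp h6)
  exact ((h4.add h5).sub h7).const_smul (1 / 2 : ℝ)

end JNCGa

/-- Christoffel symbols -/
theorem pr_NcGa (h1 : StOp) : NcGa := by
  intro n g hg
  obtain ⟨hsh, hop, hl, hr, hs, ho, hi, hH, hv⟩ := h1 n g hg
  have key : ∀ (x : E n) (l : E n →L[ℝ] ℝ) (w : E n), g.val x (iop g x (sh l)) w = l w := by
    intro x l w
    rw [← hop x, hr x, hsh]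
  have hsy : ∀ x w u v, fderiv ℝ g.val x w u v = fderiv ℝ g.val x w v u := JNCGa.fsymm g
  refine ⟨JNCGa.smooth g hi, hsy, fun x u v => ?_, fun x u v w => ?_⟩
  · have h2 : ((fderiv ℝ g.val x).flip u).flip v = ((fderiv ℝ g.val x).flip v).flip u := by
      ext w
      simpa using hsy x w u v
    rw [JNCGa.formula, JNCGa.formula, h2, add_comm (iop g x (sh (fderiv ℝ g.val x u v)))]
  · rw [JNCGa.formula]
    simp only [map_smul, map_add, map_sub, smul_apply, add_apply, sub_apply, key, smul_eq_mul,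
      ContinuousLinearMap.flip_apply]

end Pool.Agent.MLS
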