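import Pool.Agent.Work.MP_25cd3b_gt.NC.Stmts

set_option autoImplicit false
set_option maxSynthPendingDepth 3

/-!
# The geodesic equation in terms of the Christoffel symbols
-/

open MeasureTheory Set Filter Topology
open scoped ContDiff ENNReal

namespace Pool.Agent.MLS

namespace JNCGeo

theorem hder {n : ℕ} (g : Form n) (c : ℝ → E n) (hc : ContDiff ℝ 2 c) (t : ℝ) (a w : E n)
    (ha : HasDerivAt (deriv c) a t) :
    HasDerivAt (fun s => g.val (c s) (deriv c s) w)
      (fderiv ℝ g.val (c t) (deriv c t) (deriv c t) w + g.val (c t) a w) t := by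
  have h0 : HasDerivAt c (deriv c t) t :=
    (hc.differentiable (by norm_num) t).hasDerivAt
  have hg : HasFDerivAt g.val (fderiv ℝ g.val (c t)) (c t) :=
    (g.smooth.differentiable (by norm_num) (c t)).hasFDerivAt
  have h1 : HasDerivAt (fun s => g.val (c s)) (fderiv ℝ g.val (c t) (deriv c t)) t :=
    hg.comp_hasDerivAt t h0
  have h2 := h1.clm_apply ha
  have h3 := h2.clm_apply (hasDerivAt_const t w)
  refine h3.congr_deriv ?_
  simp

end JNCGeo

/-- geodesic equation -/
theorem pr_NcGeo (h1 : NcGa) : NcGeo := by
  intro n g hg c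
  obtain ⟨-, -, -, hK⟩ := h1 n g hg
  constructor
  · intro hc
    refine ⟨hc.smooth, fun t => ?_⟩
    have hd : Differentiable ℝ (deriv c) := by
      have h2 : ContDiff ℝ (1 + 1) c := by
        have := hc.smooth
        norm_num
        exact this
      exact ((contDiff_succ_iff_deriv.1 h2).2.2).differentiable (by norm_num)
    have ha := (hd t).hasDerivAt
    have key : ∀ w, g.val (c t) (deriv (deriv c) t + Ga g (c t) (deriv c t) (deriv c t)) w = 0 := by
      intro w
      have e1 := (JNCGeo.hder g c hc.smooth t _ w ha).unique (hc.el t w)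
      have e2 := hK (c t) (deriv c t) (deriv c t) w
      rw [map_add, ContinuousLinearMap.add_apply, e2]
      linarith
    have hz : deriv (deriv c) t + Ga g (c t) (deriv c t) (deriv c t) = 0 := by
      by_contra hne
      exact absurd (key _) (ne_of_gt (hg (c t) _ hne))
    rw [eq_neg_of_add_eq_zero_left hz] at ha
    exact ha
  · rintro ⟨hc, hd⟩
    refine ⟨hc, fun t w => ?_⟩
    have e2 := hK (c t) (deriv c t) (deriv c t) w
    refine (JNCGeo.hder g c hc t _ w (hd t)).congr_deriv ?_
    rw [map_neg, ContinuousLinearMap.neg_apply, e2]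
    ring

end Pool.Agent.MLS
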