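import Pool.Agent.Work.MP_25cd3b_gt.NC.Stmts

set_option autoImplicit false
set_option maxSynthPendingDepth 3

/-!
# Geodesics are given by the exponential map
-/

open MeasureTheory Set Filter Topology
open scoped ContDiff ENNReal
open Pool.Agent.Work.MP_c9f990_an.Al (IsFlow)

namespace Pool.Agent.MLS

namespace JNCGx

variable {n : ℕ}

/-- forward times -/
theorem fwd (h2 : StGeo2) (g : Form n) (φ : ℝ → W n → W n) (M : ℝ → W n → W n →L[ℝ] W n)
    (hg : Riem g) (hF : IsFlow (XH (Hm g)) φ M) (c : ℝ → E n) (hc : IsGeo g c) (s r : ℝ)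
    (hr : 0 ≤ r) :
    (c (s + r), op g (c (s + r)) (deriv c (s + r))) = φ r (c s, op g (c s) (deriv c s)) := by
  have hd := h2 n g hg c hc
  have hy : ∀ t : ℝ, HasDerivAt (fun r => (c (s + r), op g (c (s + r)) (deriv c (s + r))))
      (XH (Hm g) (c (s + t), op g (c (s + t)) (deriv c (s + t)))) t := by
    intro t
    exact HasDerivAt.comp_const_add s t (hd (s + t))
  have h := hF.uniq (fun r => (c (s + r), op g (c (s + r)) (deriv c (s + r))))
    (fun t _ => (hy t).hasDerivWithinAt) r hr
  simpa using h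

/-- all times -/
theorem all (h2 : StGeo2) (g : Form n) (φ : ℝ → W n → W n) (M : ℝ → W n → W n →L[ℝ] W n)
    (hg : Riem g) (hF : IsFlow (XH (Hm g)) φ M) (c : ℝ → E n) (hc : IsGeo g c) (s t : ℝ) :
    (c t, op g (c t) (deriv c t)) = φ (t - s) (c s, op g (c s) (deriv c s)) := by
  rcases le_total s t with h | h
  · have := fwd h2 g φ M hg hF c hc s (t - s) (by linarith)
    rwa [show s + (t - s) = t by ring] at this
  · have := fwd h2 g φ M hg hF c hc t (s - t) (by linarith)
    rw [show t + (s - t) = s by ring] at this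
    rw [this, ← hF.add, show t - s + (s - t) = 0 by ring, hF.zero]

end JNCGx

/-- Geodesics are given by the exponential map. -/
theorem pr_NcGx (h2 : StGeo2) (h3 : NcExp) : NcGx := by
  intro n g φ M hg hF c hc s t
  have h := JNCGx.all h2 g φ M hg hF c hc s t
  refine ⟨h, ?_⟩
  have h4 := (h3 n g φ M hg hF (c s)).2.2.1 (t - s) (deriv c s)
  rw [← h4, ← h]

end Pool.Agent.MLS
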