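import Pool.Agent.Work.MP_25cd3b_gt.NC.Stmts

set_option autoImplicit false
set_option maxSynthPendingDepth 3

/-!
# MP_25cd3b_gt: item Le, lifts of piecewise `C^1` paths through the exponential map
-/

open MeasureTheory Set Filter Topology
open scoped ContDiff ENNReal
open Pool.Agent.Work.MP_c9f990_an.Al (IsFlow)

namespace Pool.Agent.MLS

namespace JNCLe

theorem int_shift {n : ℕ} (g : Form n) (c : ℝ → E n) (a b : ℝ) :
    (∫ t in (0 : ℝ)..(b - a), nrm g (c (a + t)) (deriv (fun s => c (a + s)) t)) =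
      ∫ t in a..b, nrm g (c t) (deriv c t) := by
  have h1 : ∀ t : ℝ, deriv (fun s => c (a + s)) t = deriv c (a + t) := fun t =>
    deriv_comp_const_add c a t
  simp only [h1]
  have h2 := intervalIntegral.integral_comp_add_left (a := (0 : ℝ)) (b := b - a)
    (fun t => nrm g (c t) (deriv c t)) a
  rw [h2]
  congr 1 <;> ring

end JNCLe

open JNCLe

theorem pr_NcLe (h1 : NcLf) : NcLe := by
  intro n g φ M hg hφ p hp x y l hl
  induction hl with
  | refl x => exact fun u hu => ⟨u, hu, by simp⟩
  | cons c a b y l hc hab _ ih =>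
    intro u hu
    obtain ⟨Γ, _, _, hΓ2, hΓ3⟩ := h1 n g φ M hg hφ p hp (fun t => c (a + t)) (b - a) u
      (hc.comp (contDiff_const.add contDiff_id)) (by linarith) (by simpa using hu)
    have hT : expo φ g p (Γ (b - a)) = c b := by
      have := hΓ2 (b - a) ⟨by linarith, le_refl _⟩
      simpa using this
    obtain ⟨u', hu'1, hu'2⟩ := ih (Γ (b - a)) hT
    refine ⟨u', hu'1, ?_⟩
    rw [int_shift] at hΓ3
    linarith

end Pool.Agent.MLS
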