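import Pool.Agent.Work.MP_25cd3b_gt.NC.Stmts

set_option autoImplicit false
set_option maxSynthPendingDepth 3

/-!
# Lifts of `C^1` paths under the exponential map
-/

open MeasureTheory Set Filter Topology
open scoped ContDiff ENNReal
open Pool.Agent.Work.MP_c9f990_an.Al (IsFlow)

namespace Pool.Agent.MLS

namespace JNCLf

theorem cont_nrm_fib {n : ℕ} (g : Form n) (p : E n) : Continuous (fun w : E n => nrm g p w) := by
  unfold nrm
  exact Real.continuous_sqrt.comp
    (((g.val p).continuous.comp continuous_id).clm_apply continuous_id)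

theorem cont_speed {n : ℕ} (g : Form n) (γ : ℝ → E n) (hγ : ContDiff ℝ 1 γ) :
    Continuous (fun t : ℝ => nrm g (γ t) (deriv γ t)) := by
  have hd : Continuous (deriv γ) := hγ.continuous_deriv le_rfl
  unfold nrm
  exact Real.continuous_sqrt.comp
    (((g.smooth.continuous.comp hγ.continuous).clm_apply hd).clm_apply hd)

theorem int_mono {n : ℕ} (g : Form n) (γ : ℝ → E n) (hγ : ContDiff ℝ 1 γ) (τ T : ℝ)
    (h : τ ≤ T) :
    ∫ t in (0 : ℝ)..τ, nrm g (γ t) (deriv γ t) ≤ ∫ t in (0 : ℝ)..T, nrm g (γ t) (deriv γ t) := by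
  have hc := cont_speed g γ hγ
  have h1 : (∫ t in (0 : ℝ)..τ, nrm g (γ t) (deriv γ t)) +
      ∫ t in τ..T, nrm g (γ t) (deriv γ t) = ∫ t in (0 : ℝ)..T, nrm g (γ t) (deriv γ t) :=
    intervalIntegral.integral_add_adjacent_intervals (hc.intervalIntegrable _ _)
      (hc.intervalIntegrable _ _)
  have h2 : 0 ≤ ∫ t in τ..T, nrm g (γ t) (deriv γ t) :=
    intervalIntegral.integral_nonneg h (fun t _ => Real.sqrt_nonneg _)
  linarith

theorem cpt_ball {n : ℕ} (h1 : StBnd) (g : Form n) (hR : Riem g) (p : E n) (r : ℝ) :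
    IsCompact {w : E n | nrm g p w ≤ r} := by
  obtain ⟨C, hC, hb⟩ := (h1 n g {p} isCompact_singleton).2 hR
  refine Metric.isCompact_of_isClosed_isBounded
    (isClosed_le (cont_nrm_fib g p) continuous_const) ?_
  refine (Metric.isBounded_closedBall (x := (0 : E n)) (r := C * r)).subset ?_
  intro w hw
  rw [mem_closedBall_zero_iff]
  exact (hb p (mem_singleton p) w).trans (mul_le_mul_of_nonneg_left hw hC.le)

end JNCLf

open JNCLf in
theorem pr_NcLf (h1 : StBnd) (h2 : NcExp) (h3 : NcLoc) (h4 : NcLift) (h5 : NcBd) : NcLf := by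
  intro n g φ M hR hF p hinj γ T u hγ hT hu
  have hC := (h2 n g φ M hR hF p).1
  have hloc := (h3 n (expo φ g p) hC hinj).1
  obtain ⟨Γ, hΓc, hΓ0, hΓ⟩ := h4 n (expo φ g p) hloc γ hγ.continuous T u
    {w : E n | nrm g p w ≤ nrm g p u + ∫ t in (0 : ℝ)..T, nrm g (γ t) (deriv γ t)} hT hu
    (cpt_ball h1 g hR p _) (by
      intro τ Γ hτ0 hτT hc h0 hl
      have := h5 n g φ M hR hF p hinj γ Γ τ hγ hτ0 hc hl
      rw [h0] at this
      have h6 := int_mono g γ hγ τ T hτT
      simp only [mem_setOf_eq]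
      linarith)
  refine ⟨Γ, hΓc, hΓ0, hΓ, ?_⟩
  have := h5 n g φ M hR hF p hinj γ Γ T hγ hT hΓc hΓ
  rwa [hΓ0] at this

end Pool.Agent.MLS
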