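import Mathlib
import Pool.Agent.Work.MP_25cd3b_gt.NC.Stmts

set_option autoImplicit false
set_option maxSynthPendingDepth 3

/-!
# MP_25cd3b_gt: lifting of paths with an a priori bound (NcLift)
-/

open MeasureTheory Set Filter Topology
open scoped ContDiff ENNReal

namespace Pool.Agent.MLS

namespace JNCLift

/-- a lift on `[0, τ]` exists -/
def Lf {X : Type} [TopologicalSpace X] (f : X → X) (γ : ℝ → X) (u : X) (τ : ℝ) : Prop :=
  ∃ Γ : ℝ → X, ContinuousOn Γ (Icc 0 τ) ∧ Γ 0 = u ∧ ∀ t ∈ Icc 0 τ, f (Γ t) = γ t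

lemma ext_lift {X : Type} [TopologicalSpace X] (f : X → X) (γ : ℝ → X) (hγ : Continuous γ)
    (u : X) (t1 t2 : ℝ) (h0 : 0 ≤ t1) (h12 : t1 ≤ t2) (Γ : ℝ → X)
    (hΓ : ContinuousOn Γ (Icc 0 t1)) (hΓ0 : Γ 0 = u) (hf : ∀ t ∈ Icc 0 t1, f (Γ t) = γ t)
    (e : OpenPartialHomeomorph X X) (he : f = e) (hs : Γ t1 ∈ e.source)
    (ht : ∀ t ∈ Icc t1 t2, γ t ∈ e.target) : Lf f γ u t2 := by
  have hglue : Γ t1 = e.symm (γ t1) := by
    rw [← hf t1 ⟨h0, le_refl _⟩, he, e.left_inv hs]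
  refine ⟨fun t => if t ≤ t1 then Γ t else e.symm (γ t), ?_, ?_, ?_⟩
  · have hU : Icc 0 t2 = Icc 0 t1 ∪ Icc t1 t2 := (Icc_union_Icc_eq_Icc h0 h12).symm
    rw [hU]
    apply ContinuousOn.union_of_isClosed _ _ isClosed_Icc isClosed_Icc
    · apply hΓ.congr
      intro t ht'
      simp only [ht'.2, if_true]
    · have h1 : ContinuousOn (fun t => e.symm (γ t)) (Icc t1 t2) :=
        e.continuousOn_symm.comp hγ.continuousOn ht
      apply h1.congr
      intro t ht'
      by_cases h : t ≤ t1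
      · have : t = t1 := le_antisymm h ht'.1
        subst this
        simp only [le_refl, if_true]
        exact hglue
      · simp only [h, if_false]
  · simp only [h0, if_true]
    exact hΓ0
  · intro t ht'
    by_cases h : t ≤ t1
    · simp only [h, if_true]
      exact hf t ⟨ht'.1, h⟩
    · simp only [h, if_false]
      rw [he]
      exact e.right_inv (ht t ⟨(not_le.mp h).le, ht'.2⟩)

lemma restr {X : Type} [TopologicalSpace X] (f : X → X) (γ : ℝ → X) (u : X) (t1 t2 : ℝ)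
    (h12 : t1 ≤ t2) (h : Lf f γ u t2) : Lf f γ u t1 := by
  obtain ⟨Γ, h1, h2, h3⟩ := h
  have hsub : Icc 0 t1 ⊆ Icc 0 t2 := Icc_subset_Icc_right h12
  exact ⟨Γ, h1.mono hsub, h2, fun t ht => h3 t (hsub ht)⟩

lemma near {X : Type} [TopologicalSpace X] (γ : ℝ → X) (hγ : Continuous γ) (U : Set X)
    (hU : IsOpen U) (τ : ℝ) (h : γ τ ∈ U) : ∃ δ > 0, ∀ t, |t - τ| < δ → γ t ∈ U := by
  obtain ⟨δ, h1, h2⟩ := Metric.isOpen_iff.mp (hU.preimage hγ) τ h
  refine ⟨δ, h1, fun t ht => h2 ?_⟩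
  rw [Metric.mem_ball, Real.dist_eq]
  exact ht

end JNCLift

theorem pr_NcLift : NcLift := by
  intro n f hf γ hγ T u K hT hfu hK hbd
  let s : Set ℝ := {τ | JNCLift.Lf f γ u τ}
  have h0 : (0 : ℝ) ∈ s := by
    refine ⟨fun _ => u, continuousOn_const, rfl, ?_⟩
    intro t ht
    have : t = 0 := le_antisymm ht.2 ht.1
    subst this
    exact hfu
  have hclosed : IsClosed (s ∩ Icc 0 T) := by
    rw [← closure_subset_iff_isClosed]
    intro τ hτ
    have hτI : τ ∈ Icc 0 T := by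
      have h1 : closure (s ∩ Icc 0 T) ⊆ Icc 0 T :=
        closure_minimal inter_subset_right isClosed_Icc
      exact h1 hτ
    refine ⟨?_, hτI⟩
    by_cases hex : ∃ τ' ∈ s, τ ≤ τ'
    · obtain ⟨τ', h1, h2⟩ := hex
      exact JNCLift.restr f γ u τ τ' h2 h1
    · push Not at hex
      have hlow : ∀ t < τ, t ∈ s := by
        intro t ht
        obtain ⟨t', h1, h2⟩ := mem_closure_iff.mp hτ (Ioi t) isOpen_Ioi ht
        exact JNCLift.restr f γ u t t' (le_of_lt h1) h2.1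
      have hτ0 : 0 < τ := hex 0 h0
      -- choice of lifts
      choose! G hG using (fun t (ht : t < τ) => hlow t ht)
      have hGK : ∀ᶠ t in 𝓝[<] τ, G t t ∈ K := by
        have h1 : ∀ᶠ t in 𝓝[<] τ, t ∈ Ioo 0 τ := Ioo_mem_nhdsLT hτ0
        filter_upwards [h1] with t ht
        exact hbd t (G t) ht.1.le (ht.2.le.trans hτI.2) (hG t ht.2).1 (hG t ht.2).2.1
          (hG t ht.2).2.2
      obtain ⟨u', hu'K, hu'⟩ := hK.exists_mapClusterPt_of_frequently hGK.frequently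
      have hfG : ∀ᶠ t in 𝓝[<] τ, f (G t t) = γ t := by
        have h1 : ∀ᶠ t in 𝓝[<] τ, t ∈ Ioo 0 τ := Ioo_mem_nhdsLT hτ0
        filter_upwards [h1] with t ht
        exact (hG t ht.2).2.2 t ⟨ht.1.le, le_refl _⟩
      have hfu' : f u' = γ τ := by
        have h1 : MapClusterPt (f u') (𝓝[<] τ) (f ∘ fun t => G t t) :=
          hu'.continuousAt_comp hf.continuous.continuousAt
        have h2 : Tendsto (f ∘ fun t => G t t) (𝓝[<] τ) (𝓝 (γ τ)) := by
          apply Tendsto.congr' (f₁ := γ)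
          · filter_upwards [hfG] with t ht
            exact ht.symm
          · exact (hγ.tendsto τ).mono_left nhdsWithin_le_nhds
        have h3 : ClusterPt (f u') (Filter.map (f ∘ fun t => G t t) (𝓝[<] τ)) := h1
        have h4 : (𝓝 (f u') ⊓ 𝓝 (γ τ)).NeBot := NeBot.mono h3 (inf_le_inf_left _ h2)
        exact eq_of_nhds_neBot h4
      obtain ⟨e, heu, hfe⟩ := hf u'
      have htar : γ τ ∈ e.target := by
        rw [← hfu', hfe]
        exact e.map_source heu
      obtain ⟨δ, hδ, hδ2⟩ := JNCLift.near γ hγ e.target e.open_target τ htar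
      have hfreq : ∃ᶠ t in 𝓝[<] τ, G t t ∈ e.source :=
        hu'.frequently (e.open_source.mem_nhds heu)
      have h5 : ∀ᶠ t in 𝓝[<] τ, t ∈ Ioo (max 0 (τ - δ)) τ := by
        apply Ioo_mem_nhdsLT
        exact max_lt hτ0 (by linarith)
      obtain ⟨t1, h6, h7⟩ := (hfreq.and_eventually h5).exists
      have h8 : 0 < t1 := lt_of_le_of_lt (le_max_left _ _) h7.1
      have h9 : τ - δ < t1 := lt_of_le_of_lt (le_max_right _ _) h7.1
      apply JNCLift.ext_lift f γ hγ u t1 τ h8.le h7.2.le (G t1) (hG t1 h7.2).1 (hG t1 h7.2).2.1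
        (hG t1 h7.2).2.2 e hfe h6
      intro t ht
      apply hδ2
      rw [abs_lt]
      constructor <;> linarith [ht.1, ht.2]
  have hgt : ∀ x ∈ s ∩ Ico 0 T, (s ∩ Ioc x T).Nonempty := by
    rintro x ⟨⟨Γ, hΓ1, hΓ2, hΓ3⟩, hx0, hxT⟩
    obtain ⟨e, heu, hfe⟩ := hf (Γ x)
    have htar : γ x ∈ e.target := by
      rw [← hΓ3 x ⟨hx0, le_refl _⟩, hfe]
      exact e.map_source heu
    obtain ⟨δ, hδ, hδ2⟩ := JNCLift.near γ hγ e.target e.open_target x htar
    have hy : x < min T (x + δ / 2) := lt_min hxT (by linarith)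
    refine ⟨min T (x + δ / 2), ?_, hy, min_le_left _ _⟩
    apply JNCLift.ext_lift f γ hγ u x _ hx0 hy.le Γ hΓ1 hΓ2 hΓ3 e hfe heu
    intro t ht
    apply hδ2
    have h1 : t ≤ x + δ / 2 := ht.2.trans (min_le_right _ _)
    rw [abs_lt]
    constructor <;> linarith [ht.1]
  have hTs : T ∈ s := IsClosed.mem_of_ge_of_forall_exists_gt hclosed h0 hT hgt
  exact hTs

end Pool.Agent.MLS
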