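import Pool.Agent.Work.MP_25cd3b_gt.NC.Stmts

set_option autoImplicit false
set_option maxSynthPendingDepth 3

/-!
# Item Lin: the linearised geodesic equation
-/

open MeasureTheory Set Filter Topology
open scoped ContDiff ENNReal
open Pool.Agent.Work.MP_c9f990_an.Al (IsFlow)

namespace Pool.Agent.MLS

namespace JNCLin

variable {n : ℕ}

/-- the first component of the derivative of the Hamiltonian field -/
theorem fst_fderiv (g : Form n) (hX : ContDiff ℝ ∞ (XH (Hm g)))
    (h1 : ∀ y : W n, (XH (Hm g) y).1 = vel g y) (y δ : W n) :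
    (fderiv ℝ (XH (Hm g)) y δ).1 = fderiv ℝ (vel g) y δ := by
  have hd : HasFDerivAt (XH (Hm g)) (fderiv ℝ (XH (Hm g)) y) y :=
    ((hX.differentiable (by norm_num)) y).hasFDerivAt
  have h2 : HasFDerivAt (fun y : W n => (XH (Hm g) y).1)
      ((ContinuousLinearMap.fst ℝ (E n) (E n)).comp (fderiv ℝ (XH (Hm g)) y)) y := hd.fst
  have h3 : (fun y : W n => (XH (Hm g) y).1) = vel g := funext h1
  rw [h3] at h2
  rw [h2.fderiv]
  rfl

/-- derivative of the identity of the geodesic spray -/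
theorem spray_fderiv (g : Form n) (hX : ContDiff ℝ ∞ (XH (Hm g)))
    (hvel : ContDiff ℝ ∞ (vel g)) (hGa : ContDiff ℝ ∞ (Ga g))
    (hspr : ∀ y : W n, fderiv ℝ (vel g) y (XH (Hm g) y) = -(Ga g y.1 (vel g y) (vel g y)))
    (y δ : W n) :
    fderiv ℝ (fderiv ℝ (vel g)) y δ (XH (Hm g) y) +
      fderiv ℝ (vel g) y (fderiv ℝ (XH (Hm g)) y δ) =
    -(fderiv ℝ (Ga g) y.1 δ.1 (vel g y) (vel g y) + Ga g y.1 (fderiv ℝ (vel g) y δ) (vel g y) +
      Ga g y.1 (vel g y) (fderiv ℝ (vel g) y δ)) := by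
  have hXd : HasFDerivAt (XH (Hm g)) (fderiv ℝ (XH (Hm g)) y) y :=
    ((hX.differentiable (by norm_num)) y).hasFDerivAt
  have hvd : HasFDerivAt (vel g) (fderiv ℝ (vel g) y) y :=
    ((hvel.differentiable (by norm_num)) y).hasFDerivAt
  have hv2 : ContDiff ℝ ∞ (fderiv ℝ (vel g)) := hvel.fderiv_right (by norm_num)
  have hvdd : HasFDerivAt (fderiv ℝ (vel g)) (fderiv ℝ (fderiv ℝ (vel g)) y) y :=
    ((hv2.differentiable (by norm_num)) y).hasFDerivAt
  have hL := (hvdd.clm_apply hXd)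
  have hGd : HasFDerivAt (Ga g) (fderiv ℝ (Ga g) y.1) y.1 :=
    ((hGa.differentiable (by norm_num)) y.1).hasFDerivAt
  have hGf : HasFDerivAt (fun y : W n => Ga g y.1)
      ((fderiv ℝ (Ga g) y.1).comp (ContinuousLinearMap.fst ℝ (E n) (E n))) y :=
    hGd.comp y hasFDerivAt_fst
  have hR := ((hGf.clm_apply hvd).clm_apply hvd).neg
  have hfun : (fun y : W n => fderiv ℝ (vel g) y (XH (Hm g) y)) =
      fun y : W n => -(Ga g y.1 (vel g y) (vel g y)) := funext hspr
  rw [hfun] at hL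
  have h := hL.unique hR
  have h' := congrArg (fun A : W n →L[ℝ] E n => A δ) h
  simp only [add_apply, ContinuousLinearMap.comp_apply,
    ContinuousLinearMap.flip_apply, neg_apply,
    ContinuousLinearMap.coe_fst'] at h'
  rw [add_comm] at h'
  rw [h']
  abel

end JNCLin

open JNCLin in
/-- Item Lin. -/
theorem pr_NcLin (h1 : StOp) (h2 : StHd) (h3 : StTr0) (h4 : NcGa) (h5 : NcSpr) : NcLin := by
  intro n g φ M hg hφ z δ
  have hH : ContDiff ℝ ∞ (Hm g) := (h1 n g hg).2.2.2.2.2.2.2.1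
  have hX : ContDiff ℝ ∞ (XH (Hm g)) := (h3 n (Hm g) hH).1
  obtain ⟨hvel, hspr⟩ := h5 n g φ M hg hφ
  obtain ⟨hGa, -, hGs, -⟩ := h4 n g hg
  have hfst : ∀ y : W n, (XH (Hm g) y).1 = vel g y := fun y => (h2 n g hg y).1
  have hX1 : ContDiff ℝ ∞ (fderiv ℝ (XH (Hm g))) := hX.fderiv_right (by norm_num)
  have hv1 : ContDiff ℝ ∞ (fderiv ℝ (vel g)) := hvel.fderiv_right (by norm_num)
  -- the curve in phase space
  have hz : ∀ t, HasDerivAt (fun s => φ s z) (XH (Hm g) (φ t z)) t := fun t => hφ.ode z t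
  have hδ : ∀ t, HasDerivAt (fun s => M s z δ) (fderiv ℝ (XH (Hm g)) (φ t z) (M t z δ)) t := by
    intro t
    have h := (hφ.Mode z t).clm_apply (hasDerivAt_const t δ)
    simpa using h
  have hzc : Continuous (fun t => φ t z) :=
    continuous_iff_continuousAt.2 fun t => (hz t).continuousAt
  have hδc : Continuous (fun t => M t z δ) :=
    continuous_iff_continuousAt.2 fun t => (hδ t).continuousAt
  have hz1 : ContDiff ℝ 1 (fun t => φ t z) := by
    rw [contDiff_one_iff_deriv]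
    refine ⟨fun t => (hz t).differentiableAt, ?_⟩
    have : deriv (fun t => φ t z) = fun t => XH (Hm g) (φ t z) := funext fun t => (hz t).deriv
    rw [this]
    exact hX.continuous.comp hzc
  have hδ1 : ContDiff ℝ 1 (fun t => M t z δ) := by
    rw [contDiff_one_iff_deriv]
    refine ⟨fun t => (hδ t).differentiableAt, ?_⟩
    have : deriv (fun t => M t z δ) = fun t => fderiv ℝ (XH (Hm g)) (φ t z) (M t z δ) :=
      funext fun t => (hδ t).deriv
    rw [this]
    exact (hX1.continuous.comp hzc).clm_apply hδc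
  have hJ : ∀ t, HasDerivAt (fun s => (M s z δ).1) (fderiv ℝ (vel g) (φ t z) (M t z δ)) t := by
    intro t
    have h := (ContinuousLinearMap.fst ℝ (E n) (E n)).hasFDerivAt.comp_hasDerivAt t (hδ t)
    exact h.congr_deriv (fst_fderiv g hX hfst _ _)
  have hJd : deriv (fun s => (M s z δ).1) = fun t => fderiv ℝ (vel g) (φ t z) (M t z δ) :=
    funext fun t => (hJ t).deriv
  refine ⟨?_, fun t => (hJ t).deriv, ?_⟩
  · have h2 : (1 + 1 : WithTop ℕ∞) = 2 := one_add_one_eq_two
    have : ContDiff ℝ (1 + 1) (fun s => (M s z δ).1) := by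
      rw [contDiff_succ_iff_deriv]
      refine ⟨fun t => (hJ t).differentiableAt, by simp, ?_⟩
      rw [hJd]
      exact ((hv1.of_le (by norm_num)).comp hz1).clm_apply hδ1
    exact this.of_le h2.ge
  · intro t
    rw [hJd]
    have hvd : HasFDerivAt (fderiv ℝ (vel g)) (fderiv ℝ (fderiv ℝ (vel g)) (φ t z)) (φ t z) :=
      ((hv1.differentiable (by norm_num)) (φ t z)).hasFDerivAt
    have hA : HasDerivAt (fun t => fderiv ℝ (vel g) (φ t z))
        (fderiv ℝ (fderiv ℝ (vel g)) (φ t z) (XH (Hm g) (φ t z))) t :=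
      hvd.comp_hasDerivAt t (hz t)
    have hB := hA.clm_apply (hδ t)
    refine hB.congr_deriv ?_
    have hs : fderiv ℝ (fderiv ℝ (vel g)) (φ t z) (XH (Hm g) (φ t z)) (M t z δ) =
        fderiv ℝ (fderiv ℝ (vel g)) (φ t z) (M t z δ) (XH (Hm g) (φ t z)) := by
      have hsy : IsSymmSndFDerivAt ℝ (vel g) (φ t z) :=
        (hvel.contDiffAt (x := φ t z)).isSymmSndFDerivAt (by
          rw [minSmoothness_of_isRCLikeNormedField]
          exact WithTop.coe_le_coe.2 (le_top : (2 : ℕ∞) ≤ ⊤))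
      exact hsy _ _
    rw [hs, spray_fderiv g hX hvel hGa hspr, hGs (φ t z).1 (fderiv ℝ (vel g) (φ t z) (M t z δ))]
    rw [two_smul]
    abel

end Pool.Agent.MLS
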