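import Pool.Agent.Work.MP_25cd3b_gt.NC.Stmts

set_option autoImplicit false
set_option maxSynthPendingDepth 3

/-!
# Block NC, item Loc: local inverses and derivatives of lifts
-/

open MeasureTheory Set Filter Topology
open scoped ContDiff ENNReal

namespace Pool.Agent.MLS

namespace JNCLoc

/-- an injective continuous endomorphism is an equivalence -/
theorem exists_equiv {n : ℕ} (A : E n →L[ℝ] E n) (h : ∀ w, A w = 0 → w = 0) :
    ∃ e : E n ≃L[ℝ] E n, (e : E n →L[ℝ] E n) = A := by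
  have hinj : Function.Injective (A : E n →ₗ[ℝ] E n) := by
    rw [injective_iff_map_eq_zero]
    intro w hw
    exact h w hw
  refine ⟨(LinearEquiv.ofInjectiveEndo (A : E n →ₗ[ℝ] E n) hinj).toContinuousLinearEquiv, ?_⟩
  ext w i
  rfl

theorem strict {n : ℕ} {f : E n → E n} (hf : ContDiff ℝ 1 f)
    (h : ∀ v w, fderiv ℝ f v w = 0 → w = 0) (v : E n) :
    ∃ e : E n ≃L[ℝ] E n, (e : E n →L[ℝ] E n) = fderiv ℝ f v ∧
      HasStrictFDerivAt f (e : E n →L[ℝ] E n) v := by
  obtain ⟨e, he⟩ := exists_equiv (fderiv ℝ f v) (h v)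
  refine ⟨e, he, ?_⟩
  rw [he]
  exact hf.contDiffAt.hasStrictFDerivAt (by norm_num)

end JNCLoc

theorem pr_NcLoc : NcLoc := by
  intro n f hf hinj
  refine ⟨?_, ?_⟩
  · refine IsLocalHomeomorph.mk f fun x => ?_
    obtain ⟨e, _, hs⟩ := JNCLoc.strict hf hinj x
    exact ⟨hs.toOpenPartialHomeomorph f, hs.mem_toOpenPartialHomeomorph_source,
      fun y _ => by rw [HasStrictFDerivAt.toOpenPartialHomeomorph_coe]⟩
  · intro γ Γ t hγ hΓ hev
    obtain ⟨e, he, hs⟩ := JNCLoc.strict hf hinj (Γ t)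
    have h0 : f (Γ t) = γ t := hev.self_of_nhds
    have h1 : ∀ᶠ s in 𝓝 t, hs.localInverse f e (Γ t) (f (Γ s)) = Γ s :=
      hΓ.eventually hs.eventually_left_inverse
    have h2 : Γ =ᶠ[𝓝 t] fun s => hs.localInverse f e (Γ t) (γ s) := by
      filter_upwards [h1, hev] with s hs1 hs2
      rw [← hs2, hs1]
    have h3 : HasFDerivAt (hs.localInverse f e (Γ t)) (e.symm : E n →L[ℝ] E n) (γ t) := by
      rw [← h0]
      exact hs.to_localInverse.hasFDerivAt
    have h4 : HasDerivAt (fun s => hs.localInverse f e (Γ t) (γ s)) (e.symm (deriv γ t)) t :=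
      h3.comp_hasDerivAt t (hγ t).hasDerivAt
    refine ⟨e.symm (deriv γ t), h4.congr_of_eventuallyEq h2, ?_⟩
    rw [← he]
    exact e.apply_symm_apply _

end Pool.Agent.MLS
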