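import Mathlib
import Pool.Agent.Work.MP_25cd3b_gt.NC.Stmts

set_option autoImplicit false
set_option maxSynthPendingDepth 3

/-!
# Item Minz of block [25cd3b NC]: no conjugate points implies that geodesics minimise
-/

open MeasureTheory Set Filter Topology
open scoped ContDiff ENNReal
open Pool.Agent.Work.MP_c9f990_an.Al (IsFlow)

namespace Pool.Agent.MLS

namespace JNCMinz

/-- length of a multiple of a unit vector -/
theorem nrm_smul_unit {n : ℕ} (g : Form n) (x v : E n) (r : ℝ) (hv : g.val x v v = 1) :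
    nrm g x (r • v) = |r| := by
  have h : g.val x (r • v) (r • v) = r ^ 2 := by
    simp only [map_smul, smul_apply, smul_eq_mul, hv]
    ring
  rw [nrm, h, Real.sqrt_sq_eq_abs]

end JNCMinz

/-- Item Minz: a metric of `R^n` with complete geodesic flow and without conjugate points. -/
theorem pr_NcMinz (h1 : NcInj) (h2 : NcDist) (h3 : NcGx) : NcMinz := by
  intro n g φ M hg hφ hnc c hc hu s t
  have hct : c t = expo φ g (c s) ((t - s) • deriv c s) := (h3 n g φ M hg hφ c hc s t).2
  have hd : gd g (c s) (expo φ g (c s) ((t - s) • deriv c s)) =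
      nrm g (c s) ((t - s) • deriv c s) :=
    (h2 n g φ M hg hφ (c s) (fun v w hw => h1 n g φ M hg hφ hnc (c s) v w hw)).2 _
  rw [hct, hd, JNCMinz.nrm_smul_unit g (c s) (deriv c s) (t - s) (hu s), abs_sub_comm]

/-- Closed manifolds. -/
theorem pr_StNC (h1 : StFlow) (h2 : NcMinz) : StNC := by
  intro n G _ _ hG g hg hinv hnc
  obtain ⟨φ, M, hφ⟩ := h1 n G hG g hg hinv
  exact h2 n g φ M hg hφ hnc

end Pool.Agent.MLS
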