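import Mathlib
import Pool.Agent.Work.MP_25cd3b_gt.NC.Stmts

set_option autoImplicit false
set_option maxSynthPendingDepth 3

/-!
# MP_25cd3b_gt, block NC: the exponential map is injective (item One)
-/

open MeasureTheory Set Filter Topology
open scoped ContDiff ENNReal unitInterval
open Pool.Agent.Work.MP_c9f990_an.Al (IsFlow)

namespace Pool.Agent.MLS

namespace JNCOne

variable {n : ℕ}

/-- the point of the homotopy between the two rays -/
noncomputable def hm (f : E n → E n) (u v : E n) (s t : ℝ) : E n :=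
  (1 - s) • f (t • u) + s • f (t • v)

theorem hm_contDiff (f : E n → E n) (hf : ContDiff ℝ 1 f) (u v : E n) (s : ℝ) :
    ContDiff ℝ 1 (hm f u v s) := by
  unfold hm
  have h1 : ContDiff ℝ 1 (fun t : ℝ => f (t • u)) := hf.comp (contDiff_id.smul contDiff_const)
  have h2 : ContDiff ℝ 1 (fun t : ℝ => f (t • v)) := hf.comp (contDiff_id.smul contDiff_const)
  exact (h1.const_smul (1 - s)).add (h2.const_smul s)

theorem hm_continuous (f : E n → E n) (hf : Continuous f) (u v : E n) :
    Continuous (fun q : ℝ × ℝ => hm f u v q.1 q.2) := by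
  unfold hm
  have h1 : Continuous (fun q : ℝ × ℝ => f (q.2 • u)) := hf.comp (by fun_prop)
  have h2 : Continuous (fun q : ℝ × ℝ => f (q.2 • v)) := hf.comp (by fun_prop)
  exact ((continuous_const.sub continuous_fst).smul h1).add (continuous_fst.smul h2)

/-- if all paths of the homotopy between the images of two rays can be lifted, and the images of the
end points of the rays agree, then the rays agree -/
theorem inj_core (f : E n → E n) (hf : Continuous f) (hl : IsLocalHomeomorph f)
    (u v : E n) (huv : f u = f v)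
    (hlift : ∀ s : ℝ, ∃ Γ : ℝ → E n, ContinuousOn Γ (Icc 0 1) ∧ Γ 0 = 0 ∧
      ∀ t ∈ Icc (0 : ℝ) 1, f (Γ t) = hm f u v s t) : u = v := by
  choose Γ hc h0 hΓ using hlift
  have sep : IsSeparatedMap f := T2Space.isSeparatedMap f
  have inj : IsLocallyInjective f := hl.isLocallyInjective
  set Γ' : I → C(I, E n) := fun s =>
    ⟨fun t => Γ (s : ℝ) (t : ℝ), (hc s).comp_continuous continuous_subtype_val fun t => t.2⟩ with hΓ'
  have hmI : Continuous (fun q : I × I => hm f u v (q.1 : ℝ) (q.2 : ℝ)) :=
    (hm_continuous f hf u v).comp ((continuous_subtype_val.comp continuous_fst).prodMk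
      (continuous_subtype_val.comp continuous_snd))
  let γ₀ : C(I, E n) := ⟨fun t => f ((t : ℝ) • u),
    hf.comp (continuous_subtype_val.smul continuous_const)⟩
  let γ₁ : C(I, E n) := ⟨fun t => f ((t : ℝ) • v),
    hf.comp (continuous_subtype_val.smul continuous_const)⟩
  let γ : γ₀.HomotopyRel γ₁ {0, 1} :=
    { toFun := fun q => hm f u v (q.1 : ℝ) (q.2 : ℝ)
      continuous_toFun := hmI
      map_zero_left := fun t => by
        change hm f u v ((0 : I) : ℝ) (t : ℝ) = f ((t : ℝ) • u)
        simp [hm]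
      map_one_left := fun t => by
        change hm f u v ((1 : I) : ℝ) (t : ℝ) = f ((t : ℝ) • v)
        simp [hm]
      prop' := fun s x hx => by
        change hm f u v (s : ℝ) (x : ℝ) = f ((x : ℝ) • u)
        rcases hx with hx | hx
        · subst hx
          simp only [hm, Set.Icc.coe_zero, zero_smul]
          rw [← add_smul]
          simp
        · have hx' : x = 1 := hx
          subst hx'
          simp only [hm, Set.Icc.coe_one, one_smul]
          rw [← huv, ← add_smul]
          simp }
  have hγ : ∀ s t : I, f (Γ' s t) = γ (s, t) := fun s t => hΓ (s : ℝ) (t : ℝ) t.2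
  have hΓ0 : ∀ s : I, Γ' s 0 = Γ' 0 0 := by
    intro s
    change Γ (s : ℝ) ((0 : I) : ℝ) = Γ ((0 : I) : ℝ) ((0 : I) : ℝ)
    simp only [Set.Icc.coe_zero]
    rw [h0, h0]
  have hmono := hl.monodromy_theorem sep γ Γ' hγ hΓ0 1
  -- the two lifts of the rays
  have e0 : (fun t : I => Γ' 0 t) = fun t : I => (t : ℝ) • u := by
    refine sep.eq_of_comp_eq inj (Γ' 0).continuous
      (continuous_subtype_val.smul continuous_const) ?_ 0 ?_
    · funext t
      change f (Γ' 0 t) = f ((t : ℝ) • u)
      rw [hγ 0 t]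
      change hm f u v ((0 : I) : ℝ) (t : ℝ) = _
      simp [hm]
    · change Γ ((0 : I) : ℝ) ((0 : I) : ℝ) = ((0 : I) : ℝ) • u
      simp only [Set.Icc.coe_zero, zero_smul]
      exact h0 0
  have e1 : (fun t : I => Γ' 1 t) = fun t : I => (t : ℝ) • v := by
    refine sep.eq_of_comp_eq inj (Γ' 1).continuous
      (continuous_subtype_val.smul continuous_const) ?_ 0 ?_
    · funext t
      change f (Γ' 1 t) = f ((t : ℝ) • v)
      rw [hγ 1 t]
      change hm f u v ((1 : I) : ℝ) (t : ℝ) = _
      simp [hm]
    · change Γ ((1 : I) : ℝ) ((0 : I) : ℝ) = ((0 : I) : ℝ) • v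
      simp only [Set.Icc.coe_zero, Set.Icc.coe_one, zero_smul]
      exact h0 1
  have q0 : Γ' 0 1 = u := by
    have := congrFun e0 1
    simpa using this
  have q1 : Γ' 1 1 = v := by
    have := congrFun e1 1
    simpa using this
  rw [← q0, ← q1]
  exact hmono.symm

end JNCOne

open JNCOne in
theorem pr_NcOne (h1 : NcExp) (h2 : NcLoc) (h3 : NcLf) : NcOne := by
  intro n g φ M hR hφ p hinj u v huv
  obtain ⟨hcd, -, -, -, hp⟩ := h1 n g φ M hR hφ p
  obtain ⟨hl, -⟩ := h2 n (expo φ g p) hcd hinj
  refine inj_core (expo φ g p) hcd.continuous hl u v huv fun s => ?_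
  have hs : expo φ g p 0 = hm (expo φ g p) u v s 0 := by
    simp only [hm, zero_smul]
    rw [← add_smul]
    simp
  obtain ⟨Γ, hc, h0, hΓ, -⟩ := h3 n g φ M hR hφ p hinj (hm (expo φ g p) u v s) 1 0
    (hm_contDiff _ hcd u v s) zero_le_one hs
  exact ⟨Γ, hc, h0, hΓ⟩

end Pool.Agent.MLS
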