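import Pool.Agent.Work.MP_25cd3b_gt.NC.Stmts

set_option autoImplicit false
set_option maxSynthPendingDepth 3

/-!
# Item Spr: the geodesic spray
-/

open MeasureTheory Set Filter Topology
open scoped ContDiff ENNReal
open Pool.Agent.Work.MP_c9f990_an.Al (IsFlow)

namespace Pool.Agent.MLS

/-- Item Spr. -/
theorem pr_NcSpr (h1 : StOp) (h2 : StGeo1) (h3 : NcGeo) : NcSpr := by
  intro n g φ M hg hφ
  have hvel : ContDiff ℝ ∞ (vel g) := by
    have hi : ContDiff ℝ ∞ (iop g) := (h1 n g hg).2.2.2.2.2.2.1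
    exact (hi.comp contDiff_fst).clm_apply contDiff_snd
  refine ⟨hvel, fun z => ?_⟩
  have hode : ∀ t, HasDerivAt (fun s => φ s z) (XH (Hm g) (φ t z)) t := fun t => hφ.ode z t
  obtain ⟨hgeo, hder, -⟩ := h2 n g hg (fun s => φ s z) hode
  have hcd := ((h3 n g hg _).1 hgeo).2 0
  have hfun : deriv (fun s => (φ s z).1) = fun t => vel g (φ t z) := funext hder
  rw [hfun] at hcd
  have hchain : HasDerivAt (fun t => vel g (φ t z))
      (fderiv ℝ (vel g) (φ 0 z) (XH (Hm g) (φ 0 z))) 0 := by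
    have hd : HasFDerivAt (vel g) (fderiv ℝ (vel g) (φ 0 z)) (φ 0 z) :=
      ((hvel.differentiable (by norm_num)) (φ 0 z)).hasFDerivAt
    exact hd.comp_hasDerivAt (0 : ℝ) (hode 0)
  have h := hchain.unique hcd
  simp only [hφ.zero] at h
  exact h

end Pool.Agent.MLS
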