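import Pool.Agent.Work.MP_25cd3b_gt.NC.Stmts

set_option autoImplicit false
set_option maxSynthPendingDepth 3

open MeasureTheory Set Filter Topology
open scoped ContDiff ENNReal
open Pool.Agent.Work.MP_c9f990_an.Al (IsFlow)

namespace Pool.Agent.MLS

namespace JNCInj

/-- vertical derivative of the velocity -/
theorem vel_vert (h1 : StOp) (n : ℕ) (g : Form n) (hg : Riem g) (p P Q : E n) :
    fderiv ℝ (vel g) (p, P) ((0 : E n), Q) = iop g p Q := by
  obtain ⟨-, -, -, -, -, -, hi, -, -⟩ := h1 n g hg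
  have hd : DifferentiableAt ℝ (vel g) (p, P) := by
    have h : ContDiff ℝ ∞ (fun z : W n => iop g z.1 z.2) := (hi.comp contDiff_fst).clm_apply contDiff_snd
    exact (h.differentiable (by simp)).differentiableAt
  have hl : HasDerivAt (fun t : ℝ => ((p, P) : W n) + t • ((0 : E n), Q)) ((0 : E n), Q) 0 := by
    have := ((hasDerivAt_id (0 : ℝ)).smul_const ((0 : E n), Q)).const_add ((p, P) : W n)
    simpa using this
  have h0 : ((p, P) : W n) + (0 : ℝ) • ((0 : E n), Q) = (p, P) := by simp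
  have hc : HasDerivAt (fun t : ℝ => vel g (((p, P) : W n) + t • ((0 : E n), Q)))
      (fderiv ℝ (vel g) (p, P) ((0 : E n), Q)) 0 := by
    have hf : HasFDerivAt (vel g) (fderiv ℝ (vel g) (p, P)) (((p, P) : W n) + (0 : ℝ) • ((0 : E n), Q)) := by
      rw [h0]; exact hd.hasFDerivAt
    exact hf.comp_hasDerivAt (0 : ℝ) hl
  have he : (fun t : ℝ => vel g (((p, P) : W n) + t • ((0 : E n), Q)))
      = fun t : ℝ => iop g p P + t • iop g p Q := by
    funext t
    simp [vel, map_add, map_smul]
  rw [he] at hc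
  have hc2 : HasDerivAt (fun t : ℝ => iop g p P + t • iop g p Q) (iop g p Q) 0 := by
    have := ((hasDerivAt_id (0 : ℝ)).smul_const (iop g p Q)).const_add (iop g p P)
    simpa using this
  exact hc.unique hc2

end JNCInj

open JNCInj in
theorem pr_NcInj (h1 : StOp) (h3 : StGeo1) (h4 : NcLin) (h5 : NcCov) (h6 : NcExp) : NcInj := by
  intro n g φ M hR hφ hN p v w hw
  obtain ⟨-, -, hiop, -, -, -, -, -, -⟩ := h1 n g hR
  obtain ⟨geo, dv, -⟩ := h3 n g hR (fun t => φ t (p, op g p v)) (fun t => hφ.ode (p, op g p v) t)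
  obtain ⟨cd, d1, d2⟩ := h4 n g φ M hR hφ (p, op g p v) (0, op g p w)
  have hJac : IsJac g (fun t => (φ t (p, op g p v)).1) (fun t => (M t (p, op g p v) (0, op g p w)).1) := by
    refine h5 n g hR _ _ geo cd (fun t => ?_)
    have h := d2 t
    rw [← dv t] at h
    exact h
  have hJ := hN _ geo _ hJac 0 1 (by norm_num) (by simp [hφ.M0]) (by
    have h := (h6 n g φ M hR hφ p).2.1 v w
    rw [hw] at h
    exact h.symm)
  have hz : (fun s => (M s (p, op g p v) ((0 : E n), op g p w)).1) = fun _ => (0 : E n) := funext hJ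
  have h0 := d1 0
  rw [hz, deriv_const, hφ.zero, hφ.M0] at h0
  have h7 := vel_vert h1 n g hR p (op g p v) (op g p w)
  rw [hiop] at h7
  rw [← h7]
  simpa using h0.symm

end Pool.Agent.MLS
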