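import Pool.Agent.Work.MP_25cd3b_gt.M.All
import Pool.Agent.Work.MP_25cd3b_gt.NC.I_Bd
import Pool.Agent.Work.MP_25cd3b_gt.NC.I_Cov
import Pool.Agent.Work.MP_25cd3b_gt.NC.I_Dist
import Pool.Agent.Work.MP_25cd3b_gt.NC.I_Exp
import Pool.Agent.Work.MP_25cd3b_gt.NC.I_Ga
import Pool.Agent.Work.MP_25cd3b_gt.NC.I_Gauss
import Pool.Agent.Work.MP_25cd3b_gt.NC.I_Geo
import Pool.Agent.Work.MP_25cd3b_gt.NC.I_Gx
import Pool.Agent.Work.MP_25cd3b_gt.NC.I_Inj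
import Pool.Agent.Work.MP_25cd3b_gt.NC.I_Le
import Pool.Agent.Work.MP_25cd3b_gt.NC.I_Lf
import Pool.Agent.Work.MP_25cd3b_gt.NC.I_Lift
import Pool.Agent.Work.MP_25cd3b_gt.NC.I_Lin
import Pool.Agent.Work.MP_25cd3b_gt.NC.I_Loc
import Pool.Agent.Work.MP_25cd3b_gt.NC.I_Minz
import Pool.Agent.Work.MP_25cd3b_gt.NC.I_One
import Pool.Agent.Work.MP_25cd3b_gt.NC.I_Spr

set_option autoImplicit false

/-!
# MP_25cd3b_gt, block NC: all items assembled
-/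

open MeasureTheory Set Filter Topology
open scoped ContDiff ENNReal
open Pool.Agent.Work.MP_c9f990_an.Al (IsFlow)

namespace Pool.Agent.MLS

theorem p_NcGa : NcGa := pr_NcGa pr_Op
theorem p_NcGeo : NcGeo := pr_NcGeo p_NcGa
theorem p_NcSpr : NcSpr := pr_NcSpr pr_Op p_Geo1 p_NcGeo
theorem p_NcLin : NcLin := pr_NcLin pr_Op p_Hd pr_Tr0 p_NcGa p_NcSpr
theorem p_NcCov : NcCov := pr_NcCov p_NcGa p_NcGeo
theorem p_NcExp : NcExp := pr_NcExp pr_Op p_Hd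
theorem p_NcGauss : NcGauss := pr_NcGauss pr_Op p_Hd pr_Tr0 p_Geo1 p_NcExp
theorem p_NcInj : NcInj := pr_NcInj pr_Op p_Geo1 p_NcLin p_NcCov p_NcExp
theorem p_NcLoc : NcLoc := pr_NcLoc
theorem p_NcLift : NcLift := pr_NcLift
theorem p_NcBd : NcBd := pr_NcBd p_NcLoc p_NcExp p_NcGauss
theorem p_NcLf : NcLf := pr_NcLf pr_Bnd p_NcExp p_NcLoc p_NcLift p_NcBd
theorem p_NcLe : NcLe := pr_NcLe p_NcLf
theorem p_NcOne : NcOne := pr_NcOne p_NcExp p_NcLoc p_NcLf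
theorem p_NcDist : NcDist := pr_NcDist pr_Gd pr_Op p_Geo1 p_NcExp p_NcLe p_NcOne
theorem p_NcGx : NcGx := pr_NcGx p_Geo2 p_NcExp
theorem p_NcMinz : NcMinz := pr_NcMinz p_NcInj p_NcDist p_NcGx

/-- no conjugate points (Jacobi fields) implies that all geodesics of the cover minimise -/
theorem p_StNC : StNC := pr_StNC p_Flow p_NcMinz

/-- the exponential maps of a metric without conjugate points on the universal cover of a closed
manifold -/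
theorem p_StExp (n : ℕ) (G : Type) [Group G] [MulAction G (E n)] (hG : Cocompact n G)
    (g : Form n) (hg : Riem g) (hI : Inv G g) (hN : NoConj g) :
    ∃ (φ : ℝ → W n → W n) (M : ℝ → W n → W n →L[ℝ] W n), IsFlow (XH (Hm g)) φ M ∧
      ∀ p : E n, ContDiff ℝ 1 (expo φ g p) ∧
        (∀ v w, fderiv ℝ (expo φ g p) v w = 0 → w = 0) ∧
        Function.Bijective (expo φ g p) ∧ ∀ v, gd g p (expo φ g p v) = nrm g p v := by
  obtain ⟨φ, M, hφ⟩ := p_Flow n G hG g hg hI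
  refine ⟨φ, M, hφ, fun p => ?_⟩
  have hinj := p_NcInj n g φ M hg hφ hN
  have hd := p_NcDist n g φ M hg hφ p (hinj p)
  exact ⟨(p_NcExp n g φ M hg hφ p).1, hinj p, hd.1, hd.2⟩

end Pool.Agent.MLS
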