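import Pool.Agent.Work.MP_25cd3b_gt.M.Stmts

set_option autoImplicit false

/-!
# Levi-Civita connection, curvature, Jacobi fields, conjugate points, exponential map

Definitions for metrics on `R^n` (`Form n`, file `M/Defs`).
-/

open MeasureTheory Set Filter Topology
open scoped ContDiff ENNReal

namespace Pool.Agent.MLS

/-- Christoffel symbols of the metric (Levi-Civita connection): `Ga g x u v` is the vector with
`g (Ga g x u v, w) = 1/2 (D_u g (v, w) + D_v g (u, w) - D_w g (u, v))` for all `w`.  (The operator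
`(iop g x).comp sh` sends a linear form `l` to the vector `a` with `g (a, w) = l w`; the three terms
are the linear forms `D_u g (v, ·)`, `D_v g (u, ·)` and `w ↦ D_w g (u, v)`.) -/
noncomputable def Ga {n : ℕ} (g : Form n) (x : E n) : E n →L[ℝ] E n →L[ℝ] E n :=
  (1 / 2 : ℝ) •
    ((ContinuousLinearMap.compL ℝ (E n) (E n →L[ℝ] ℝ) (E n) ((iop g x).comp sh)).comp
        (fderiv ℝ g.val x) +
      ((ContinuousLinearMap.compL ℝ (E n) (E n →L[ℝ] ℝ) (E n) ((iop g x).comp sh)).comp
        (fderiv ℝ g.val x)).flip -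
      (ContinuousLinearMap.compL ℝ (E n) (E n →L[ℝ] ℝ) (E n) ((iop g x).comp sh)).comp
        (((ContinuousLinearMap.flipₗᵢ ℝ (E n) (E n) ℝ).toContinuousLinearEquiv :
          (E n →L[ℝ] E n →L[ℝ] ℝ) →L[ℝ] (E n →L[ℝ] E n →L[ℝ] ℝ)).comp
          (fderiv ℝ g.val x).flip))

/-- covariant derivative along the curve `c` of the vector field `X` -/
noncomputable def cov {n : ℕ} (g : Form n) (c X : ℝ → E n) (t : ℝ) : E n :=
  deriv X t + Ga g (c t) (deriv c t) (X t)

/-- curvature tensor `R(u, v) w` -/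
noncomputable def Rm {n : ℕ} (g : Form n) (x u v w : E n) : E n :=
  fderiv ℝ (Ga g) x u v w - fderiv ℝ (Ga g) x v u w + Ga g x u (Ga g x v w) -
    Ga g x v (Ga g x u w)

/-- Jacobi fields along `c`: `D^2 J + R(J, c') c' = 0` -/
structure IsJac {n : ℕ} (g : Form n) (c J : ℝ → E n) : Prop where
  smooth : ContDiff ℝ 2 J
  jac : ∀ t, cov g c (cov g c J) t + Rm g (c t) (J t) (deriv c t) (deriv c t) = 0

/-- no conjugate points: a Jacobi field along a geodesic which vanishes at two different points
vanishes identically -/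
def NoConj {n : ℕ} (g : Form n) : Prop :=
  ∀ c : ℝ → E n, IsGeo g c → ∀ J : ℝ → E n, IsJac g c J →
    ∀ a b : ℝ, a ≠ b → J a = 0 → J b = 0 → ∀ t, J t = 0

/-- exponential map at `p` (in terms of the geodesic flow `φ`) -/
noncomputable def expo {n : ℕ} (φ : ℝ → W n → W n) (g : Form n) (p v : E n) : E n :=
  (φ 1 (p, op g p v)).1

end Pool.Agent.MLS
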